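import Pool.Agent.H76.PP.Df1

/-!
Row Cu (about 110 lines): existence of the cubic extension.

PROOF. p := X ^ 3 + C A * X + C B : K[X], monic of degree 3 (compute_degree, monicity), irreducible since it has no root: Polynomial.Monic.irreducible_iff_roots_eq_zero_of_degree_le_three. L := AdjoinRoot p (a field with Fact (Irreducible p)), Algebra K L, Module.Finite K L (pb := AdjoinRoot.powerBasis'  hp_monic or powerBasis),
 NumberField L (NumberField.of_module_finite K L; CharZero by charZero_of_injective_algebraMap). θ := AdjoinRoot.root p. root: AdjoinRoot.eval₂_root / aeval, simp. li: the polynomial q = C c₀ + C c₁ X + C c₂ X^2 has aeval θ q = 0, so p ∣ q (AdjoinRoot.mk_eq_zero), q of degree < 3, hence q = 0 (Polynomial.eq_zero_of_dvd_of_degree_lt or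
 Monic.not_dvd_of_degree_lt) and its coefficients vanish. sp: x = mk q, q = q %ₘ p + p (..), q %ₘ p has degree < 3: write it as C (coeff 0) + C (coeff 1) X + C (coeff 2) X^2 (Polynomial.as_sum_range' 3 / Finset.sum_range_succ).
-/

set_option autoImplicit false
open scoped Classical

open NumberField H76PP

namespace H24PD

open Polynomial in
private theorem cu_aux {K : Type} [Field K] [NumberField K] {A B : K}
    (h : ∀ t : K, t ^ 3 + A * t + B ≠ 0) (p : K[X]) (hp : p = X ^ 3 + C A * X + C B) :
    ∃ (L : Type) (_ : Field L) (_ : NumberField L) (_ : Algebra K L) (θ : L), Cub K L A B θ := by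
  have hdeg : p.natDegree = 3 := by
    rw [hp]
    compute_degree!
  have hmon : p.Monic := by
    rw [hp]
    monicity!
  have hirr : Irreducible p := by
    rw [hmon.irreducible_iff_roots_eq_zero_of_degree_le_three (by omega) (by omega)]
    apply Multiset.eq_zero_of_forall_notMem
    intro t ht
    rw [mem_roots hmon.ne_zero, IsRoot.def, hp] at ht
    simp only [eval_add, eval_pow, eval_X, eval_mul, eval_C] at ht
    exact h t ht
  haveI : Fact (Irreducible p) := ⟨hirr⟩
  haveI : Module.Finite K (AdjoinRoot p) := (AdjoinRoot.powerBasis' hmon).finite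
  refine ⟨AdjoinRoot p, inferInstance, NumberField.of_module_finite K _, inferInstance,
    AdjoinRoot.root p, ?_, ?_, ?_⟩
  · have h1 : AdjoinRoot.mk p (X ^ 3 + C A * X + C B) = 0 := by
      rw [← hp]
      exact AdjoinRoot.mk_self
    rw [map_add, map_add, map_mul, map_pow, AdjoinRoot.mk_X, AdjoinRoot.mk_C,
      AdjoinRoot.mk_C] at h1
    exact h1
  · intro c₀ c₁ c₂ hc
    have h1 : AdjoinRoot.mk p (C c₀ + C c₁ * X + C c₂ * X ^ 2) = 0 := by
      rw [map_add, map_add, map_mul, map_mul, map_pow, AdjoinRoot.mk_X, AdjoinRoot.mk_C,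
        AdjoinRoot.mk_C, AdjoinRoot.mk_C]
      exact hc
    rw [AdjoinRoot.mk_eq_zero] at h1
    have h2 : C c₀ + C c₁ * X + C c₂ * X ^ 2 = 0 := by
      apply Polynomial.eq_zero_of_dvd_of_natDegree_lt h1
      rw [hdeg]
      have h3 : (C c₀ + C c₁ * X + C c₂ * X ^ 2).natDegree ≤ 2 := by compute_degree
      omega
    have e0 := congrArg (fun f => coeff f 0) h2
    have e1 := congrArg (fun f => coeff f 1) h2
    have e2 := congrArg (fun f => coeff f 2) h2
    simp [coeff_X, coeff_C] at e0 e1 e2
    exact ⟨e0, e1, e2⟩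
  · intro x
    obtain ⟨f, rfl⟩ := AdjoinRoot.mk_surjective x
    have h1 : AdjoinRoot.mk p f = AdjoinRoot.mk p (f %ₘ p) := by
      conv_lhs => rw [← modByMonic_add_div f p]
      rw [map_add, map_mul, AdjoinRoot.mk_self, zero_mul, add_zero]
    have h2 : (f %ₘ p).natDegree < 3 := by
      rw [← hdeg]
      apply natDegree_modByMonic_lt f hmon
      intro h3
      rw [h3, natDegree_one] at hdeg
      omega
    refine ⟨(f %ₘ p).coeff 0, (f %ₘ p).coeff 1, (f %ₘ p).coeff 2, ?_⟩
    rw [h1]
    conv_lhs => rw [as_sum_range' (f %ₘ p) 3 h2]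
    rw [Finset.sum_range_succ, Finset.sum_range_succ, Finset.sum_range_succ,
      Finset.sum_range_zero, zero_add, ← C_mul_X_pow_eq_monomial, ← C_mul_X_pow_eq_monomial,
      ← C_mul_X_pow_eq_monomial, pow_zero, mul_one, pow_one, map_add, map_add, map_mul, map_mul,
      map_pow, AdjoinRoot.mk_X, AdjoinRoot.mk_C, AdjoinRoot.mk_C, AdjoinRoot.mk_C]
    rfl

theorem cu {K : Type} [Field K] [NumberField K] {A B : K} (h : ∀ t : K, t ^ 3 + A * t + B ≠ 0) :
    ∃ (L : Type) (_ : Field L) (_ : NumberField L) (_ : Algebra K L) (θ : L), Cub K L A B θ :=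
  cu_aux h _ rfl

end H24PD
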