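import Pool.Agent.H76.PP.Df1
import Pool.Agent.H10.Descent
import Pool.Agent.H10.Func7

/-!
Block D of the project MP_78d38b_PP (helper24): definitions (no row).
-/

set_option autoImplicit false
open scoped Classical

open WeierstrassCurve Pool.Agent.H10

namespace H24PD

section

variable {k : Type*} [Field k] {E : WeierstrassCurve k}

/-- The Weil pairing of a two-torsion point with the two-torsion point of abscissa `e`. -/
noncomputable def wp (e : k) : E.toAffine.Point → ℤˣ
  | 0 => 1
  | .some x _ _ => if x = e then 1 else -1

/-- The function whose square is `x (2 P) - e` (`c` is the derivative of the cubic at its root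
`e`). -/
noncomputable def hx (e c : k) : E.toAffine.Point → k
  | 0 => 0
  | .some x y _ => ((x - e) ^ 2 - c) / (2 * y)

end

/-- Evaluation. -/
def E3 {M : Type*} [CommRing M] (e : M) (u : Fin 3 → M) : M := u 0 + u 1 * e + u 2 * e ^ 2

end H24PD
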