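import Pool.Agent.H24.PD.Df

/-!
Row Em (about 150 lines): the three embeddings of the cubic field and the curve `IsCub`.

PROOF. `Cub K L a b θ` (Pool/Agent/H76/PP/Df0.lean): θ is a root, 1, θ, θ^2 are linearly independent (li) and span (sp). fin3: the linear map (Fin 3 → K) → L, c ↦ c 0 + c 1 θ + c 2 θ^2 is a linear equivalence; so L is finite of dimension 3 (Module.finrank_fin_fun, LinearEquiv.finrank_eq).
 emb_ext: every x of L is c₀ + c₁ θ + c₂ θ^2 (sp), so φ x = ψ x.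
 emb3: Fintype.card (L →ₐ[K] Ω) = finrank K L = 3 (AlgHom.card K L Ω; L separable over K as CharZero K, algebraic). Three distinct elements: e.g. Fintype.equivFin / `Finset.card_eq_three`, `Finset.univ = {φ₁, φ₂, φ₃}`.
 emb_root: apply φ to the equation `root`.
 isCub_of: for distinct roots: subtract the equations: (e₁-e₂)(e₁²+e₁e₂+e₂²+a) = 0 so e₁²+e₁e₂+e₂²+a = 0 (1), likewise e₁²+e₁e₃+e₃²+a = 0 (2); subtract: (e₂-e₃)(e₁+e₂+e₃) = 0, so e₁+e₂+e₃ = 0 (3). Then e₁e₂+e₁e₃+e₂e₃ = a: e₃ = -e₁-e₂: = e₁e₂-(e₁+e₂)^2 = -(e₁²+e₁e₂+e₂²) = a;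
 b = -e₁³-a e₁ = ... = -e₁e₂e₃. c_eq: (e₁-e₂)(e₁-e₃) = e₁² - e₁(e₂+e₃) + e₂e₃ = 2e₁² + e₂e₃, and e₂e₃ = a - e₁(e₂+e₃) = a + e₁²: = 3e₁²+a.
 elliptic: 4a³+27b² ≠ 0: in Ω = AlgebraicClosure K take the roots e_i = φ_i θ, distinct (emb_ext, emb3): -(4a³+27b²) = ((e₁-e₂)(e₁-e₃)(e₂-e₃))^2 (isCub_of gives a, b in terms of e_i and e₁+e₂+e₃ = 0 from a₂ = 0). Δ of ⟨0,0,0,a,b⟩ is -16(4a³+27b²) (simp [WeierstrassCurve.Δ, b₂, b₄, b₆, b₈]; ring).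
-/

set_option autoImplicit false
open scoped Classical

open WeierstrassCurve Pool.Agent.H10 H76PP

namespace H24PD

section

variable {K L Ω : Type} [Field K] [Field L] [Field Ω] [Algebra K L] [Algebra K Ω] {a b : K} {θ : L}

lemma Em_li (hL : Cub K L a b θ) : LinearIndependent K ![(1 : L), θ, θ ^ 2] := by
  refine Fintype.linearIndependent_iff.2 (fun g hg => ?_)
  rw [Fin.sum_univ_three] at hg
  simp only [Matrix.cons_val_zero, Matrix.cons_val_one, Matrix.cons_val, Algebra.smul_def,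
    mul_one] at hg
  obtain ⟨h0, h1, h2⟩ := hL.li _ _ _ hg
  intro i
  fin_cases i
  · exact h0
  · exact h1
  · exact h2

lemma Em_sp (hL : Cub K L a b θ) : ⊤ ≤ Submodule.span K (Set.range ![(1 : L), θ, θ ^ 2]) := by
  intro x _
  obtain ⟨c₀, c₁, c₂, rfl⟩ := hL.sp x
  have m : ∀ i : Fin 3, ![(1 : L), θ, θ ^ 2] i ∈
      Submodule.span K (Set.range ![(1 : L), θ, θ ^ 2]) := fun i =>
    Submodule.subset_span ⟨i, rfl⟩
  have m0 : (1 : L) ∈ Submodule.span K (Set.range ![(1 : L), θ, θ ^ 2]) := m 0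
  have m1 : θ ∈ Submodule.span K (Set.range ![(1 : L), θ, θ ^ 2]) := m 1
  have m2 : θ ^ 2 ∈ Submodule.span K (Set.range ![(1 : L), θ, θ ^ 2]) := m 2
  have e0 : algebraMap K L c₀ = c₀ • (1 : L) := Algebra.algebraMap_eq_smul_one c₀
  rw [e0, ← Algebra.smul_def, ← Algebra.smul_def]
  exact Submodule.add_mem _ (Submodule.add_mem _ (Submodule.smul_mem _ _ m0)
    (Submodule.smul_mem _ _ m1)) (Submodule.smul_mem _ _ m2)

theorem fin3 (hL : Cub K L a b θ) : FiniteDimensional K L ∧ Module.finrank K L = 3 := by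
  have B := Module.Basis.mk (Em_li hL) (Em_sp hL)
  refine ⟨Module.Finite.of_basis B, ?_⟩
  rw [Module.finrank_eq_card_basis B, Fintype.card_fin]

theorem emb_ext (hL : Cub K L a b θ) {φ ψ : L →ₐ[K] Ω} (h : φ θ = ψ θ) : φ = ψ := by
  refine AlgHom.ext (fun x => ?_)
  obtain ⟨c₀, c₁, c₂, rfl⟩ := hL.sp x
  simp only [map_add, map_mul, map_pow, AlgHom.commutes, h]

theorem emb_root (hL : Cub K L a b θ) (φ : L →ₐ[K] Ω) :
    φ θ ^ 3 + algebraMap K Ω a * φ θ + algebraMap K Ω b = 0 := by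
  have h := congrArg φ hL.root
  simpa only [map_add, map_mul, map_pow, AlgHom.commutes, map_zero] using h

theorem emb3 [CharZero K] [IsAlgClosed Ω] (hL : Cub K L a b θ) : ∃ φ₁ φ₂ φ₃ : L →ₐ[K] Ω,
    φ₁ ≠ φ₂ ∧ φ₁ ≠ φ₃ ∧ φ₂ ≠ φ₃ ∧ ∀ φ, φ = φ₁ ∨ φ = φ₂ ∨ φ = φ₃ := by
  obtain ⟨hf, hr⟩ := fin3 hL
  have hc : (Finset.univ : Finset (L →ₐ[K] Ω)).card = 3 := by
    rw [Finset.card_univ, AlgHom.card K L Ω, hr]
  obtain ⟨x, y, z, hxy, hxz, hyz, hu⟩ := Finset.card_eq_three.1 hc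
  refine ⟨x, y, z, hxy, hxz, hyz, fun φ => ?_⟩
  have hm : φ ∈ (Finset.univ : Finset (L →ₐ[K] Ω)) := Finset.mem_univ φ
  rw [hu] at hm
  simpa only [Finset.mem_insert, Finset.mem_singleton] using hm

end

lemma Em_rel {M : Type*} [Field M] {a b e₁ e₂ e₃ : M} (r1 : e₁ ^ 3 + a * e₁ + b = 0)
    (r2 : e₂ ^ 3 + a * e₂ + b = 0) (r3 : e₃ ^ 3 + a * e₃ + b = 0) (h12 : e₁ ≠ e₂)
    (h13 : e₁ ≠ e₃) (h23 : e₂ ≠ e₃) :
    e₁ + e₂ + e₃ = 0 ∧ e₁ * e₂ + e₁ * e₃ + e₂ * e₃ = a ∧ -(e₁ * e₂ * e₃) = b := by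
  have q1 : e₁ ^ 2 + e₁ * e₂ + e₂ ^ 2 + a = 0 := by
    refine mul_left_cancel₀ (sub_ne_zero.2 h12) ?_
    linear_combination r1 - r2
  have q2 : e₁ ^ 2 + e₁ * e₃ + e₃ ^ 2 + a = 0 := by
    refine mul_left_cancel₀ (sub_ne_zero.2 h13) ?_
    linear_combination r1 - r3
  have q3 : e₁ + e₂ + e₃ = 0 := by
    refine mul_left_cancel₀ (sub_ne_zero.2 h23) ?_
    linear_combination q1 - q2
  have q4 : e₃ = -(e₁ + e₂) := by linear_combination q3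
  refine ⟨q3, ?_, ?_⟩
  · rw [q4]
    linear_combination -q1
  · rw [q4]
    linear_combination -r1 + e₁ * q1

theorem isCub_of {M : Type*} [Field M] {E : WeierstrassCurve M} {a b e₁ e₂ e₃ : M}
    (h1 : E.a₁ = 0) (h2 : E.a₂ = 0) (h3 : E.a₃ = 0) (h4 : E.a₄ = a) (h6 : E.a₆ = b)
    (two : (2 : M) ≠ 0) (r1 : e₁ ^ 3 + a * e₁ + b = 0) (r2 : e₂ ^ 3 + a * e₂ + b = 0)
    (r3 : e₃ ^ 3 + a * e₃ + b = 0) (h12 : e₁ ≠ e₂) (h13 : e₁ ≠ e₃) (h23 : e₂ ≠ e₃) :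
    IsCub E e₁ e₂ e₃ := by
  obtain ⟨q1, q2, q3⟩ := Em_rel r1 r2 r3 h12 h13 h23
  exact
    { a₁ := h1
      a₂ := by rw [h2, q1, neg_zero]
      a₃ := h3
      a₄ := by rw [h4, q2]
      a₆ := by rw [h6, q3]
      h12 := h12
      h13 := h13
      h23 := h23
      two := two }

theorem c_eq {M : Type*} [Field M] {E : WeierstrassCurve M} {a e₁ e₂ e₃ : M}
    (h : IsCub E e₁ e₂ e₃) (h2 : E.a₂ = 0) (h4 : E.a₄ = a) :
    (e₁ - e₂) * (e₁ - e₃) = 3 * e₁ ^ 2 + a := by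
  have q1 := h.a₂
  have q2 := h.a₄
  rw [h2] at q1
  rw [h4] at q2
  rw [q2]
  linear_combination (-2 * e₁) * q1

theorem elliptic {K L : Type} [Field K] [CharZero K] [Field L] [Algebra K L] {a b : K} {θ : L}
    (hL : Cub K L a b θ) : (⟨0, 0, 0, a, b⟩ : WeierstrassCurve K).IsElliptic := by
  obtain ⟨φ₁, φ₂, φ₃, h12, h13, h23, -⟩ := emb3 (Ω := AlgebraicClosure K) hL
  have n12 : φ₁ θ ≠ φ₂ θ := fun h => h12 (emb_ext hL h)
  have n13 : φ₁ θ ≠ φ₃ θ := fun h => h13 (emb_ext hL h)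
  have n23 : φ₂ θ ≠ φ₃ θ := fun h => h23 (emb_ext hL h)
  obtain ⟨q1, q2, q3⟩ := Em_rel (emb_root hL φ₁) (emb_root hL φ₂) (emb_root hL φ₃) n12 n13 n23
  have hD : (⟨0, 0, 0, a, b⟩ : WeierstrassCurve K).Δ = -16 * (4 * a ^ 3 + 27 * b ^ 2) := by
    simp only [WeierstrassCurve.Δ, WeierstrassCurve.b₂, WeierstrassCurve.b₄,
      WeierstrassCurve.b₆, WeierstrassCurve.b₈]
    ring
  refine ⟨?_⟩
  rw [isUnit_iff_ne_zero, hD]
  intro h0
  have h1 : (4 * a ^ 3 + 27 * b ^ 2 : K) = 0 := by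
    rcases mul_eq_zero.1 h0 with h | h
    · exact absurd h (by norm_num)
    · exact h
  have h2 := congrArg (algebraMap K (AlgebraicClosure K)) h1
  simp only [map_add, map_mul, map_pow, map_ofNat, map_zero] at h2
  rw [← q2, ← q3] at h2
  have h3 : ((φ₁ θ - φ₂ θ) * (φ₁ θ - φ₃ θ) * (φ₂ θ - φ₃ θ)) ^ 2 = 0 := by
    have q4 : φ₃ θ = -(φ₁ θ + φ₂ θ) := by linear_combination q1
    rw [q4] at h2 ⊢
    linear_combination -h2
  have h4 := pow_eq_zero_iff (two_ne_zero) |>.1 h3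
  exact mul_ne_zero (mul_ne_zero (sub_ne_zero.2 n12) (sub_ne_zero.2 n13)) (sub_ne_zero.2 n23) h4

end H24PD
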