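import Pool.Agent.H73.IS.I1
import Pool.Agent.H11.MW
import Pool.Agent.H11.Divis2

/-!
Row Fi (about 120 lines): from the vanishing of the two-Selmer group to finiteness of the points and triviality of the two-primary part of the Tate-Shafarevich group.

PROOF. Ω = AlgebraicClosure K, E = V.baseChange Ω (elliptic). Sl K V f (Pool/Agent/H73/IS/I1.lean) = cocycle, locally trivial, 2 f = 0; coboundaries σ ↦ act σ Q - Q are cocycles and locally trivial: shaB_le with isCobound_iff (Pool/Agent/H10/Func7.lean, Func4.lean). two_divisible / smul_surjective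
 (Pool/Agent/H11/Divis.lean, Divis2.lean): every point of E is Q + Q.
 (1) E(K) = 2 E(K): for R : (V.baseChange K).toAffine.Point let P := its image in E (Affine.Point.map (Algebra.ofId K Ω) R); P = Q + Q; f σ := act (inv_bc K V) σ Q - Q; f σ + f σ = act σ P - P = 0 (Pool.Agent.H11.act_of_K in Pool/Agent/H11/MW.lean: `Pool.Agent.H11.act W σ` is Affine.Point.map σ.toAlgHom; compare with
 `Pool.Agent.H10.act` by map_eq_pm as in the proof of isCobound_iff). H gives S, S + S = 0, act σ (Q - S) = Q - S; exists_of_act_eq (H11/MW.lean) gives R' with image Q - S; R = R' + R' by Affine.Point.map_injective. V.baseChange K is V up to `WeierstrassCurve.map_id`: see mordell_weil' and mordell_weil in H11/MW.lean for the two forms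
 (mordell_weil is for V.toAffine.Point; there `exact mordell_weil' W` works by definitional unfolding or use W.baseChange K = W, rewriting).
 (2) G := the points is a finitely generated abelian group (mordell_weil) with G = 2G: Submodule.exists_sub_one_mem_and_smul_eq_zero_of_fg_of_le_smul over ℤ with I = span {2}, N = ⊤ gives an odd r with r • G = 0, so G is torsion, and AddCommGroup.finite_of_fg_torsion (Module.Finite ℤ G from AddGroup.FG) gives Finite G.
 (3) Sha2Trivial: copy the induction of Pool.Agent.H10.sha2Trivial_of_hasse (Pool/Agent/H10/Hasse.lean); the key step: f cocycle, locally trivial, f σ + f σ = act σ Q - Q; Q = R + R; g σ := f σ - (act σ R - R) is in Sl (ShaZ is a subgroup; 2 g = 0); H gives S, f σ = act σ (R + S) - (R + S).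
-/

set_option autoImplicit false
open scoped Classical

open WeierstrassCurve NumberField IsDedekindDomain Pool.Agent.H10

namespace H24PD

theorem Fi_cob {K : Type} [Field K] [NumberField K] (V : WeierstrassCurve K)
    (Q : (V.baseChange (AlgebraicClosure K)).toAffine.Point) :
    (fun σ => act (inv_bc K V) σ Q - Q) ∈ ShaZ K V :=
  shaB_le K V ((isCobound_iff _).2 ⟨Q, fun _ => rfl⟩)

theorem Fi_base {K : Type} [Field K] [NumberField K] (V : WeierstrassCurve K) [V.IsElliptic]
    (H : ∀ f : Coch K V, H73IS.Sl K V f →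
      ∃ S : (V.baseChange (AlgebraicClosure K)).toAffine.Point, S + S = 0 ∧
        ∀ σ, f σ = act (inv_bc K V) σ S - S) (R : (V.baseChange K).toAffine.Point) :
    ∃ R' : (V.baseChange K).toAffine.Point, R = R' + R' := by
  obtain ⟨P, hP⟩ : ∃ P : (V.baseChange (AlgebraicClosure K)).toAffine.Point,
      P = WeierstrassCurve.Affine.Point.map (Algebra.ofId K (AlgebraicClosure K)) R := ⟨_, rfl⟩
  have hact : ∀ (σ : AlgebraicClosure K ≃ₐ[K] AlgebraicClosure K)
      (X : (V.baseChange (AlgebraicClosure K)).toAffine.Point),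
      Pool.Agent.H11.act V σ X = act (inv_bc K V) σ X := by
    intro σ X
    unfold Pool.Agent.H11.act
    rw [map_eq_pm]
    rfl
  have hPfix : ∀ σ : AlgebraicClosure K ≃ₐ[K] AlgebraicClosure K,
      act (inv_bc K V) σ P = P := by
    intro σ
    rw [← hact, hP]
    exact Pool.Agent.H11.act_of_K V R σ
  obtain ⟨Q, hQ⟩ := Pool.Agent.H11.smul_surjective (V.baseChange (AlgebraicClosure K)) 2
    (by norm_num) P
  rw [two_nsmul] at hQ
  obtain ⟨S, hS, hS'⟩ := H (fun σ => act (inv_bc K V) σ Q - Q)
    ⟨(Fi_cob V Q).1, (Fi_cob V Q).2, fun σ => by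
      have h1 : act (inv_bc K V) σ Q - Q + (act (inv_bc K V) σ Q - Q) =
          act (inv_bc K V) σ (Q + Q) - (Q + Q) := by
        rw [map_add]
        abel
      rw [h1, hQ, hPfix, sub_self]⟩
  obtain ⟨R', hR'⟩ := Pool.Agent.H11.exists_of_act_eq V (Q - S) (by
    intro σ
    rw [hact, map_sub]
    have h1 : act (inv_bc K V) σ Q - Q = act (inv_bc K V) σ S - S := hS' σ
    rw [sub_eq_sub_iff_sub_eq_sub.mp h1])
  refine ⟨R', ?_⟩
  apply WeierstrassCurve.Affine.Point.map_injective (f := Algebra.ofId K (AlgebraicClosure K))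
  rw [map_add, hR', ← hP, ← hQ]
  have h2 : Q - S + (Q - S) = Q + Q - (S + S) := by abel
  rw [h2, hS, sub_zero]

theorem fi_div {K : Type} [Field K] [NumberField K] {V : WeierstrassCurve K} [V.IsElliptic]
    (H : ∀ f : Coch K V, H73IS.Sl K V f →
      ∃ S : (V.baseChange (AlgebraicClosure K)).toAffine.Point, S + S = 0 ∧
        ∀ σ, f σ = act (inv_bc K V) σ S - S) (R : V.toAffine.Point) :
    ∃ R' : V.toAffine.Point, R = R' + R' := by
  exact Fi_base V H R

theorem fin_of_div {G : Type*} [AddCommGroup G] (hG : AddGroup.FG G)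
    (h : ∀ x : G, ∃ y : G, x = y + y) : Finite G := by
  have hfin : Module.Finite ℤ G := Module.Finite.iff_addGroup_fg.mpr hG
  obtain ⟨r, hr, hr0⟩ := Submodule.exists_sub_one_mem_and_smul_eq_zero_of_fg_of_le_smul
    (Ideal.span {(2 : ℤ)}) (⊤ : Submodule ℤ G) hfin.fg_top (by
      intro x _
      obtain ⟨y, hy⟩ := h x
      have h1 : x = (2 : ℤ) • y := by rw [hy, two_smul]
      rw [h1]
      exact Submodule.smul_mem_smul (Ideal.mem_span_singleton_self _) Submodule.mem_top)
  have hrn : r ≠ 0 := by
    rintro rfl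
    rw [Ideal.mem_span_singleton] at hr
    omega
  apply Module.finite_of_fg_torsion
  intro x
  exact ⟨⟨r, mem_nonZeroDivisors_of_ne_zero hrn⟩, hr0 x Submodule.mem_top⟩

theorem fi {K : Type} [Field K] [NumberField K] {V : WeierstrassCurve K} [V.IsElliptic]
    (H : ∀ f : Coch K V, H73IS.Sl K V f →
      ∃ S : (V.baseChange (AlgebraicClosure K)).toAffine.Point, S + S = 0 ∧
        ∀ σ, f σ = act (inv_bc K V) σ S - S) :
    Finite V.toAffine.Point ∧ Sha2Trivial K V := by
  refine ⟨fin_of_div (Pool.Agent.H11.mordell_weil V) (fi_div H), ?_⟩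
  have key : ∀ f, IsCocycle K V f → IsLocTriv K V f → IsCobound K V (fun σ => f σ + f σ) →
      IsCobound K V f := by
    intro f hf hl h2
    obtain ⟨Q, hQ⟩ := (isCobound_iff _).1 h2
    obtain ⟨R, hR⟩ := Pool.Agent.H11.smul_surjective (V.baseChange (AlgebraicClosure K)) 2
      (by norm_num) Q
    rw [two_nsmul] at hR
    have hmem := (ShaZ K V).sub_mem (x := f) (y := fun σ => act (inv_bc K V) σ R - R) ⟨hf, hl⟩
      (Fi_cob V R)
    obtain ⟨S, hS, hS'⟩ := H (f - fun σ => act (inv_bc K V) σ R - R)
      ⟨hmem.1, hmem.2, fun σ => by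
        have h1 : (f - fun σ => act (inv_bc K V) σ R - R) σ +
            (f - fun σ => act (inv_bc K V) σ R - R) σ =
            (f σ + f σ) - (act (inv_bc K V) σ (R + R) - (R + R)) := by
          rw [Pi.sub_apply, map_add]
          abel
        rw [h1, hR]
        have h3 : f σ + f σ = act (inv_bc K V) σ Q - Q := hQ σ
        rw [h3, sub_self]⟩
    refine (isCobound_iff _).2 ⟨R + S, fun σ => ?_⟩
    have h1 := hS' σ
    rw [Pi.sub_apply, sub_eq_iff_eq_add] at h1
    rw [h1, map_add]
    abel
  have hmul : ∀ (m : ℕ) (f : (AlgebraicClosure K ≃ₐ[K] AlgebraicClosure K) →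
      (V.baseChange (AlgebraicClosure K)).toAffine.Point), IsCocycle K V f → IsLocTriv K V f →
      IsCocycle K V (fun σ => m • f σ) ∧ IsLocTriv K V (fun σ => m • f σ) := by
    intro m f hf hl
    have h1 := (ShaZ K V).nsmul_mem (x := f) ⟨hf, hl⟩ m
    exact h1
  rintro f hf hl ⟨m, hm⟩
  induction m with
  | zero => simpa using hm
  | succ m ih =>
    apply ih
    obtain ⟨h1, h2⟩ := hmul (2 ^ m) f hf hl
    apply key _ h1 h2
    have h3 : (fun σ => (2 ^ m) • f σ + (2 ^ m) • f σ) = (fun σ => (2 ^ (m + 1)) • f σ) := by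
      funext σ
      rw [← two_nsmul, ← mul_nsmul, pow_succ]
    rw [h3]
    exact hm

end H24PD
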