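import Pool.Agent.H24.PD.Df

/-!
Row Hx (about 150 lines): the function `hx e c` on points, c = the derivative of the cubic at its root e.

PROOF. Everything follows from `half` (Pool/Agent/H10/Cub.lean): half h x s₁ s₂ s₃ = some (x + s₁s₂ + s₁s₃ + s₂s₃) ((s₁+s₂)(s₁+s₃)(s₂+s₃)) where s_i^2 = x - e_i. With X, Y the coordinates of half:
 X - e₁ = (s₁+s₂)(s₁+s₃), (e₁-e₂)(e₁-e₃) = (s₂^2-s₁^2)(s₃^2-s₁^2), so (X-e₁)^2 - (e₁-e₂)(e₁-e₃) = (s₁+s₂)(s₁+s₃) [(s₁+s₂)(s₁+s₃) - (s₂-s₁)(s₃-s₁)] = (s₁+s₂)(s₁+s₃) 2 s₁ (s₂+s₃) = 2 Y s₁; Y ≠ 0 (as in half_add_half: s_i + s_j ≠ 0 since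
 e_i ≠ e_j), so hx e₁ ((e₁-e₂)(e₁-e₃)) (half ..) = s₁ (*).
 exists_half (Pool/Agent/H10/Bridge.lean): every point some X Y with Y ≠ 0 is a half. Y ≠ 0 if P + P ≠ 0 (Y = 0 gives P + P = 0: Affine.Point.add_self_of_Y_eq and h.negY_eq).
 hx_sq: P = half (x; s₁,s₂,s₃) (P + P ≠ 0 since it is some X Y; if P = 0 then P + P = 0 = some .., impossible), half_add_half: P + P = some x (s₁s₂s₃), so X = x and hx^2 = s₁^2 = x - e₁.
 hx_add: S = h.tau a (exists_tau), half_add_tau with t₁ = (a.1 a.2) s₁, t₂ = a.1 s₂, t₃ = a.2 s₃ (t_i^2 = s_i^2): P + S = half (x; t₁,t₂,t₃); by (*) hx (P+S) = t₁ = (a.1 a.2) hx P; and wp e₁ (tau a) = a.1 a.2 (four cases as in row Wp: tau (1,1) = 0, tau (1,-1) = T₂,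
 tau (-1,1) = T₃, tau (-1,-1) = T₁, T_i = some e_i 0; do these four cases here directly). hx_pm: cases on P, pm_some, map_div₀.
-/

set_option autoImplicit false
open scoped Classical

open WeierstrassCurve Pool.Agent.H10

namespace H24PD

variable {k : Type*} [Field k] {E : WeierstrassCurve k} {e₁ e₂ e₃ : k}

lemma Hx_half (h : IsCub E e₁ e₂ e₃) {x s₁ s₂ s₃ : k} (h1 : s₁ ^ 2 = x - e₁)
    (h2 : s₂ ^ 2 = x - e₂) (h3 : s₃ ^ 2 = x - e₃) :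
    hx e₁ ((e₁ - e₂) * (e₁ - e₃)) (h.half x s₁ s₂ s₃ h1 h2 h3) = s₁ := by
  have n12 : s₁ + s₂ ≠ 0 := by
    intro H
    apply h.h12
    linear_combination (s₁ - s₂) * (-H) + h1 - h2
  have n13 : s₁ + s₃ ≠ 0 := by
    intro H
    apply h.h13
    linear_combination (s₁ - s₃) * (-H) + h1 - h3
  have n23 : s₂ + s₃ ≠ 0 := by
    intro H
    apply h.h23
    linear_combination (s₂ - s₃) * (-H) + h2 - h3
  have hY : (s₁ + s₂) * (s₁ + s₃) * (s₂ + s₃) ≠ 0 := mul_ne_zero (mul_ne_zero n12 n13) n23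
  have e0 : hx e₁ ((e₁ - e₂) * (e₁ - e₃)) (h.half x s₁ s₂ s₃ h1 h2 h3) =
      ((x + s₁ * s₂ + s₁ * s₃ + s₂ * s₃ - e₁) ^ 2 - (e₁ - e₂) * (e₁ - e₃)) /
        (2 * ((s₁ + s₂) * (s₁ + s₃) * (s₂ + s₃))) := rfl
  rw [e0, div_eq_iff (mul_ne_zero h.two hY)]
  have E1 : e₁ = x - s₁ ^ 2 := by linear_combination h1
  have E2 : e₂ = x - s₂ ^ 2 := by linear_combination h2
  have E3 : e₃ = x - s₃ ^ 2 := by linear_combination h3
  rw [E1, E2, E3]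
  ring

lemma Hx_exists (h : IsCub E e₁ e₂ e₃) (P : E.toAffine.Point) (hP : P + P ≠ 0) :
    ∃ (x s₁ s₂ s₃ : k) (h1 : s₁ ^ 2 = x - e₁) (h2 : s₂ ^ 2 = x - e₂) (h3 : s₃ ^ 2 = x - e₃),
      P = h.half x s₁ s₂ s₃ h1 h2 h3 := by
  rcases P with _ | ⟨X, Y, hns⟩
  · exact absurd (add_zero _) hP
  · have hY : Y ≠ 0 := by
      intro hY
      apply hP
      apply Affine.Point.add_self_of_Y_eq
      rw [h.negY_eq, hY, neg_zero]
    obtain ⟨x, s₁, s₂, s₃, h1, h2, h3, hh, -⟩ := h.exists_half hns hY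
    exact ⟨x, s₁, s₂, s₃, h1, h2, h3, hh⟩

lemma Hx_wp (h : IsCub E e₁ e₂ e₃) (a : ℤˣ × ℤˣ) : wp e₁ (h.tau a) = a.1 * a.2 := by
  have hm : ((-1 : ℤˣ) = 1) = False := by decide
  have w1 : wp e₁ h.T₁ = 1 := if_pos rfl
  have w2 : wp e₁ h.T₂ = -1 := if_neg h.h12.symm
  have w3 : wp e₁ h.T₃ = -1 := if_neg h.h13.symm
  have w0 : wp e₁ (0 : E.toAffine.Point) = 1 := rfl
  rcases a with ⟨u, v⟩
  rcases Int.units_eq_one_or u with rfl | rfl <;> rcases Int.units_eq_one_or v with rfl | rfl <;>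
  simp [IsCub.tau, hm, w0, w1, w2, w3]

lemma Hx_unit_sq {F : Type*} [Field F] (u : ℤˣ) : (((u : ℤˣ) : ℤ) : F) ^ 2 = 1 := by
  rcases Int.units_eq_one_or u with rfl | rfl <;> simp

theorem hx_sq (h : IsCub E e₁ e₂ e₃) {P : E.toAffine.Point} {X Y : k}
    {hXY : E.toAffine.Nonsingular X Y} (hP : P + P = .some X Y hXY) :
    hx e₁ ((e₁ - e₂) * (e₁ - e₃)) P ^ 2 = X - e₁ := by
  have hP0 : P + P ≠ 0 := by
    rw [hP]
    exact Affine.Point.some_ne_zero _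
  obtain ⟨x, s₁, s₂, s₃, h1, h2, h3, rfl⟩ := Hx_exists h P hP0
  have hns : E.toAffine.Nonsingular x (s₁ * s₂ * s₃) := by
    apply h.nonsingular
    rw [← h1, ← h2, ← h3]
    ring
  rw [h.half_add_half h1 h2 h3 hns, Affine.Point.some.injEq] at hP
  rw [Hx_half h h1 h2 h3, h1, hP.1]

theorem hx_add (h : IsCub E e₁ e₂ e₃) {P : E.toAffine.Point} (hP : P + P ≠ 0)
    {S : E.toAffine.Point} (hS : S + S = 0) :
    hx e₁ ((e₁ - e₂) * (e₁ - e₃)) (P + S) =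
      ((wp e₁ S : ℤ) : k) * hx e₁ ((e₁ - e₂) * (e₁ - e₃)) P := by
  obtain ⟨x, s₁, s₂, s₃, h1, h2, h3, rfl⟩ := Hx_exists h P hP
  obtain ⟨a, rfl⟩ := h.exists_tau S hS
  have k1 : ((((a.1 * a.2 : ℤˣ) : ℤ) : k) * s₁) ^ 2 = x - e₁ := by
    rw [mul_pow, Hx_unit_sq, one_mul, h1]
  have k2 : (((a.1 : ℤ) : k) * s₂) ^ 2 = x - e₂ := by
    rw [mul_pow, Hx_unit_sq, one_mul, h2]
  have k3 : (((a.2 : ℤ) : k) * s₃) ^ 2 = x - e₃ := by
    rw [mul_pow, Hx_unit_sq, one_mul, h3]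
  rw [h.half_add_tau h1 h2 h3 a k1 k2 k3 rfl rfl rfl, Hx_half h k1 k2 k3, Hx_half h h1 h2 h3,
    Hx_wp h a]

theorem hx_pm {k' : Type*} [Field k'] {E' : WeierstrassCurve k'} (φ : k →+* k')
    (hE : E.map φ = E') (e c : k) (P : E.toAffine.Point) :
    hx (φ e) (φ c) (pm φ hE P) = φ (hx e c P) := by
  rcases P with _ | ⟨X, Y, hns⟩
  · show hx (φ e) (φ c) (pm φ hE 0) = φ (hx e c 0)
    rw [map_zero]
    exact (map_zero φ).symm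
  · rw [pm_some]
    show ((φ X - φ e) ^ 2 - φ c) / (2 * φ Y) = φ (((X - e) ^ 2 - c) / (2 * Y))
    rw [map_div₀, map_sub, map_pow, map_sub, map_mul, map_ofNat]

end H24PD
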