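import Pool.Agent.H24.PD.Df

/-!
Row Ip (about 120 lines): the algebra F[T]/(T^3+aT+b) evaluated at the roots, Galois descent of an interpolation. E3 e u = u 0 + u 1 * e + u 2 * e^2 (Df.lean), m3 (Pool/Agent/H76/PP/Df1.lean).

PROOF. E3_m3: linear_combination of he: the product of u0+u1 e+u2 e^2 and v0+v1 e+v2 e^2 is reduced with e^3 = -a e - b, e^4 = -a e^2 - b e: coefficient of the relation e^3+ae+b is (u1v2+u2v1) + (u2v2) e.
 E3_inj: w = u - v: w0+w1 e_i+w2 e_i^2 = 0 for three distinct e_i: subtract and divide: (e0-e1)(w1 + w2 (e0+e1)) = 0, (e0-e2)(w1+w2(e0+e2)) = 0, so w2 (e1-e2) = 0, w2 = w1 = w0 = 0.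
 E3_ex (Lagrange): explicit: z_i = value; u = the interpolating polynomial; e.g. u2 = z0/((e0-e1)(e0-e2)) + z1/((e1-e0)(e1-e2)) + z2/((e2-e0)(e2-e1)), u1 = -(z0 (e1+e2)/((e0-e1)(e0-e2)) + ...), u0 = z0 e1 e2/(...) + ...; field_simp; ring. (Or: the linear map u ↦ (E3 e_i u)_i of M^3
 is injective by E3_inj hence surjective: LinearMap.injective_iff_surjective.)
 ip: u : Fin 3 → M interpolates z at e. For τ with π: E3 (e (π i)) (τ ∘ u) = τ (E3 (e i) u) = τ (z i) = z (π i) = E3 (e (π i)) u; π is injective (e (π i) = e (π j) gives τ (e i) = τ (e j), e i = e j, i = j as the e are distinct), hence surjective on Fin 3, so by E3_inj τ ∘ u = u for all τ. fixed_of_galois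
 (Pool/Agent/H10/Bridge3.lean) for each of the three coordinates.
-/

set_option autoImplicit false
open scoped Classical

open Pool.Agent.H10 H76PP

namespace H24PD

theorem E3_m3 {M : Type*} [CommRing M] {a b e : M} (he : e ^ 3 + a * e + b = 0)
    (u v : Fin 3 → M) : E3 e (m3 a b u v) = E3 e u * E3 e v := by
  have h0 : m3 a b u v 0 = u 0 * v 0 - b * (u 1 * v 2 + u 2 * v 1) := rfl
  have h1 : m3 a b u v 1 = u 0 * v 1 + u 1 * v 0 - a * (u 1 * v 2 + u 2 * v 1) - b * (u 2 * v 2) := rfl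
  have h2 : m3 a b u v 2 = u 0 * v 2 + u 1 * v 1 + u 2 * v 0 - a * (u 2 * v 2) := rfl
  unfold E3
  rw [h0, h1, h2]
  linear_combination (-(u 1 * v 2 + u 2 * v 1) - u 2 * v 2 * e) * he

theorem E3_inj {M : Type*} [Field M] {e : Fin 3 → M} (h01 : e 0 ≠ e 1) (h02 : e 0 ≠ e 2)
    (h12 : e 1 ≠ e 2) {u v : Fin 3 → M} (h : ∀ i, E3 (e i) u = E3 (e i) v) : u = v := by
  have g0 := h 0
  have g1 := h 1
  have g2 := h 2
  unfold E3 at g0 g1 g2
  have a1 : (u 1 - v 1) + (u 2 - v 2) * (e 0 + e 1) = 0 := by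
    have h1 : (e 0 - e 1) * ((u 1 - v 1) + (u 2 - v 2) * (e 0 + e 1)) = 0 := by
      linear_combination g0 - g1
    exact (mul_eq_zero.1 h1).resolve_left (sub_ne_zero.2 h01)
  have a2 : (u 1 - v 1) + (u 2 - v 2) * (e 0 + e 2) = 0 := by
    have h1 : (e 0 - e 2) * ((u 1 - v 1) + (u 2 - v 2) * (e 0 + e 2)) = 0 := by
      linear_combination g0 - g2
    exact (mul_eq_zero.1 h1).resolve_left (sub_ne_zero.2 h02)
  have a3 : u 2 - v 2 = 0 := by
    have h1 : (e 1 - e 2) * (u 2 - v 2) = 0 := by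
      linear_combination a1 - a2
    exact (mul_eq_zero.1 h1).resolve_left (sub_ne_zero.2 h12)
  have a4 : u 1 - v 1 = 0 := by
    rw [a3, zero_mul, add_zero] at a1
    exact a1
  have a5 : u 0 - v 0 = 0 := by
    linear_combination g0 - a4 * e 0 - a3 * e 0 ^ 2
  funext i
  fin_cases i
  · exact sub_eq_zero.1 a5
  · exact sub_eq_zero.1 a4
  · exact sub_eq_zero.1 a3

theorem E3_ex {M : Type*} [Field M] {e : Fin 3 → M} (h01 : e 0 ≠ e 1) (h02 : e 0 ≠ e 2)
    (h12 : e 1 ≠ e 2) (z : Fin 3 → M) : ∃ u : Fin 3 → M, ∀ i, E3 (e i) u = z i := by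
  obtain ⟨L, hL⟩ : ∃ L : (Fin 3 → M) →ₗ[M] (Fin 3 → M), ∀ u i, L u i = E3 (e i) u := by
    refine ⟨{ toFun := fun u i => E3 (e i) u, map_add' := fun u v => ?_, map_smul' := fun c u => ?_ }, fun u i => rfl⟩
    · funext i
      show E3 (e i) (u + v) = E3 (e i) u + E3 (e i) v
      unfold E3
      simp only [Pi.add_apply]
      ring
    · funext i
      show E3 (e i) (c • u) = c • E3 (e i) u
      unfold E3
      simp only [Pi.smul_apply, smul_eq_mul]
      ring
  have hinj : Function.Injective L := by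
    intro u v huv
    refine E3_inj h01 h02 h12 fun i => ?_
    rw [← hL u i, ← hL v i, huv]
  obtain ⟨u, hu⟩ := LinearMap.injective_iff_surjective.1 hinj z
  exact ⟨u, fun i => by rw [← hL u i, hu]⟩

theorem ip {F M : Type*} [Field F] [Field M] [Algebra F M] [IsGalois F M] {e z : Fin 3 → M}
    (h01 : e 0 ≠ e 1) (h02 : e 0 ≠ e 2) (h12 : e 1 ≠ e 2)
    (H : ∀ τ : M ≃ₐ[F] M, ∃ π : Fin 3 → Fin 3, ∀ i, τ (e i) = e (π i) ∧ τ (z i) = z (π i)) :
    ∃ u : Fin 3 → F, ∀ i, E3 (e i) (fun j => algebraMap F M (u j)) = z i := by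
  obtain ⟨u, hu⟩ := E3_ex h01 h02 h12 z
  have hei : Function.Injective e := by
    intro i j hij
    fin_cases i <;> fin_cases j
    · rfl
    · exact absurd hij h01
    · exact absurd hij h02
    · exact absurd hij.symm h01
    · rfl
    · exact absurd hij h12
    · exact absurd hij.symm h02
    · exact absurd hij.symm h12
    · rfl
  have hfix : ∀ (τ : M ≃ₐ[F] M), (fun j => τ (u j)) = u := by
    intro τ
    obtain ⟨π, hπ⟩ := H τ
    have hπi : Function.Injective π := by
      intro i j hij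
      apply hei
      apply τ.injective
      rw [(hπ i).1, (hπ j).1, hij]
    have hπs : Function.Surjective π := Finite.surjective_of_injective hπi
    refine E3_inj h01 h02 h12 fun i => ?_
    obtain ⟨j, rfl⟩ := hπs i
    rw [hu (π j), ← (hπ j).2, ← hu j, ← (hπ j).1]
    unfold E3
    simp only [map_add, map_mul, map_pow]
  have hex : ∀ j, ∃ c : F, algebraMap F M c = u j := fun j =>
    fixed_of_galois (u j) fun τ => congrFun (hfix τ) j
  choose c hc using hex
  refine ⟨c, fun i => ?_⟩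
  have : (fun j => algebraMap F M (c j)) = u := funext hc
  rw [this, hu i]

end H24PD
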