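import Pool.Agent.H24.PD.Df

/-!
Row Ku (about 130 lines): Kummer theory for a twisted family of signs. `mv σ φ = σ ∘ φ` (Pool/Agent/H10/Func2.lean, mv_apply, mv_mul, mv_one).

PROOF. tr: put an algebra structure on Ω over L through φ (letI : Algebra L Ω := φ.toRingHom.toAlgebra, IsScalarTower K L Ω by AlgHom.commutes) and apply Pool.Agent.H10.exists_lift to ψ; Ω is normal over K (IsGalois).
 ku: fix φ₀ (if there is no φ the statement is empty: use hypothesis φ₀). k := φ₀.fieldRange, an IntermediateField K Ω; Ω is Galois over k (instance for intermediate fields). For τ : Ω ≃ₐ[k] Ω let τ' := τ.restrictScalars K; mv τ' φ₀ = φ₀ since φ₀ x ∈ k is fixed. χ τ := c τ' φ₀ is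
 locally constant (composition of the locally constant function σ ↦ c σ φ₀ with the continuous map τ ↦ τ'; or use Pool.Agent.H10.lc_iff (Pool/Agent/H10/Pm.lean): locally constant iff for every σ₀ there is a finite set E of elements of Ω such that σ = σ₀ on E implies f σ = f σ₀; it is applied over K and
 over k) and multiplicative (hm with σ = τ₁', τ = τ₂', φ = φ₀ and mv τ₁' φ₀ = φ₀). Pool.Agent.H10.exists_kummer gives r₀ ≠ 0 with τ r₀ = χ τ r₀ for all τ : Ω ≃ₐ[k] Ω. An automorphism σ : Ω ≃ₐ[K] Ω with mv σ φ₀ = φ₀ fixes k, so it is a τ': σ r₀ = c σ φ₀ r₀ (*).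
 For every φ choose s φ : Ω ≃ₐ[K] Ω with mv (s φ) φ₀ = φ (tr) and put r φ := c (s φ) φ * (s φ) r₀. CLAIM: for every σ with mv σ φ₀ = φ: r φ = c σ φ * σ r₀. [ρ := (s φ)⁻¹ σ fixes φ₀, σ = s φ ρ; hm: c σ φ = c (s φ) φ * c ρ φ₀ (mv (s φ) φ₀ = φ), and σ r₀ = s φ (ρ r₀) = c ρ φ₀ * s φ r₀ by (*);
 c ρ φ₀ ^ 2 = 1.] Now for all σ, φ: with g := s φ: σ (r φ) = c g φ * (σ g) r₀ and mv (σ g) φ₀ = mv σ φ, so by the claim r (mv σ φ) = c (σ g) (mv σ φ) * (σ g) r₀ = c σ (mv σ φ) c g φ (σ g) r₀ (hm with τ = g, φ := φ ... here hm σ g needs c g at the embedding φ: hm is stated for the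
 embedding φ: c (σ * τ) (mv σ φ) = c σ (mv σ φ) * c τ φ). Multiply by c σ (mv σ φ), a sign. r φ ≠ 0: signs are nonzero, r₀ ≠ 0.
 fd: with φ₀: for σ fixing φ₀ (mv σ φ₀ = φ₀), σ (z φ₀) = z φ₀; so z φ₀ is fixed by Gal(Ω/k), k = φ₀.fieldRange (fixed_of_galois in Pool/Agent/H10/Bridge3.lean over k), so z φ₀ = φ₀ x; for φ = mv σ φ₀: z φ = σ (z φ₀) = σ (φ₀ x) = φ x.
-/

set_option autoImplicit false
open scoped Classical

open WeierstrassCurve Pool.Agent.H10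

namespace H24PD

variable {K L Ω : Type*} [Field K] [Field L] [Field Ω] [Algebra K L] [Algebra K Ω]

theorem tr [Normal K Ω] (φ ψ : L →ₐ[K] Ω) : ∃ σ : Ω ≃ₐ[K] Ω, mv σ φ = ψ := by
  letI : Algebra L Ω := φ.toRingHom.toAlgebra
  haveI : IsScalarTower K L Ω := IsScalarTower.of_algebraMap_eq fun x => (φ.commutes x).symm
  obtain ⟨s, hs⟩ := Pool.Agent.H10.exists_lift ψ
  exact ⟨s, AlgHom.ext hs⟩

private theorem ku_fix (φ₀ : L →ₐ[K] Ω) (τ : Ω ≃ₐ[φ₀.fieldRange] Ω) :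
    mv (τ.restrictScalars K) φ₀ = φ₀ := by
  apply AlgHom.ext
  intro x
  exact τ.commutes ⟨φ₀ x, ⟨x, rfl⟩⟩

private theorem ku_ext (φ₀ : L →ₐ[K] Ω) (σ : Ω ≃ₐ[K] Ω) (h : mv σ φ₀ = φ₀) :
    ∃ τ : Ω ≃ₐ[φ₀.fieldRange] Ω, τ.restrictScalars K = σ := by
  refine ⟨{ σ with commutes' := ?_ }, ?_⟩
  · rintro ⟨y, hy⟩
    obtain ⟨x, hx⟩ := hy
    subst hx
    exact DFunLike.congr_fun h x
  · apply AlgEquiv.ext
    intro x
    rfl

theorem ku [IsGalois K Ω] (c : (Ω ≃ₐ[K] Ω) → (L →ₐ[K] Ω) → ℤˣ)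
    (hc : ∀ φ, IsLocallyConstant fun σ => c σ φ)
    (hm : ∀ σ τ φ, c (σ * τ) (mv σ φ) = c σ (mv σ φ) * c τ φ) (φ₀ : L →ₐ[K] Ω) :
    ∃ r : (L →ₐ[K] Ω) → Ω, (∀ φ, r φ ≠ 0) ∧
      ∀ σ φ, σ (r φ) = ((c σ (mv σ φ) : ℤ) : Ω) * r (mv σ φ) := by
  have hloc : IsLocallyConstant
      (fun τ : Ω ≃ₐ[φ₀.fieldRange] Ω => c (τ.restrictScalars K) φ₀) := by
    rw [lc_iff]
    intro τ₀
    obtain ⟨E, hE⟩ := (lc_iff _).mp (hc φ₀) (τ₀.restrictScalars K)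
    exact ⟨E, fun τ hτ => hE (τ.restrictScalars K) hτ⟩
  obtain ⟨r₀, hr0, hr⟩ := exists_kummer
    (fun τ : Ω ≃ₐ[φ₀.fieldRange] Ω => c (τ.restrictScalars K) φ₀) hloc (by
      intro τ₁ τ₂
      have h1 := hm (τ₁.restrictScalars K) (τ₂.restrictScalars K) φ₀
      rw [ku_fix] at h1
      exact h1)
  have hstab : ∀ σ : Ω ≃ₐ[K] Ω, mv σ φ₀ = φ₀ → σ r₀ = ((c σ φ₀ : ℤ) : Ω) * r₀ := by
    intro σ hσ
    obtain ⟨τ, rfl⟩ := ku_ext φ₀ σ hσ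
    exact hr τ
  choose s hs using fun φ => tr φ₀ φ
  have hsq : ∀ u : ℤˣ, ((u : ℤ) : Ω) * ((u : ℤ) : Ω) = 1 := by
    intro u
    rw [← Int.cast_mul, ← Units.val_mul, Int.units_mul_self, Units.val_one, Int.cast_one]
  have hne : ∀ u : ℤˣ, ((u : ℤ) : Ω) ≠ 0 := by
    intro u h0
    have h1 := hsq u
    rw [h0, mul_zero] at h1
    exact zero_ne_one h1
  have claim : ∀ (σ : Ω ≃ₐ[K] Ω) (φ : L →ₐ[K] Ω), mv σ φ₀ = φ →
      ((c (s φ) φ : ℤ) : Ω) * (s φ) r₀ = ((c σ φ : ℤ) : Ω) * σ r₀ := by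
    intro σ φ hσ
    have h1 : mv ((s φ)⁻¹ * σ) φ₀ = φ₀ := by
      rw [mv_mul, hσ]
      conv_lhs => rw [← hs φ, hs φ]
      have h2 : mv (s φ)⁻¹ (mv (s φ) φ₀) = φ₀ := by
        rw [← mv_mul, inv_mul_cancel, mv_one]
      rw [hs φ] at h2
      exact h2
    have h2 : σ = s φ * ((s φ)⁻¹ * σ) := by group
    have h3 := hstab _ h1
    have h4 : c σ φ = c (s φ) φ * c ((s φ)⁻¹ * σ) φ₀ := by
      have h5 := hm (s φ) ((s φ)⁻¹ * σ) φ₀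
      rw [hs φ, ← h2] at h5
      exact h5
    have h5 : σ r₀ = ((c ((s φ)⁻¹ * σ) φ₀ : ℤ) : Ω) * (s φ) r₀ := by
      conv_lhs => rw [h2]
      rw [AlgEquiv.mul_apply, h3, map_mul, map_intCast]
    rw [h4, h5, Units.val_mul, Int.cast_mul]
    have h6 := hsq (c ((s φ)⁻¹ * σ) φ₀)
    linear_combination (-(((c (s φ) φ : ℤ) : Ω) * (s φ) r₀)) * h6
  refine ⟨fun φ => ((c (s φ) φ : ℤ) : Ω) * (s φ) r₀, ?_, ?_⟩
  · intro φ
    exact mul_ne_zero (hne _) ((map_ne_zero (s φ)).2 hr0)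
  · intro σ φ
    have h1 : mv (σ * s φ) φ₀ = mv σ φ := by rw [mv_mul, hs φ]
    have h2 := claim (σ * s φ) (mv σ φ) h1
    beta_reduce
    rw [h2, hm σ (s φ) φ, map_mul, map_intCast, Units.val_mul, Int.cast_mul, AlgEquiv.mul_apply]
    have h6 := hsq (c σ (mv σ φ))
    linear_combination (-(((c (s φ) φ : ℤ) : Ω) * σ ((s φ) r₀))) * h6

theorem fd [IsGalois K Ω] (z : (L →ₐ[K] Ω) → Ω) (hz : ∀ σ φ, σ (z φ) = z (mv σ φ))
    (φ₀ : L →ₐ[K] Ω) : ∃ x : L, ∀ φ, z φ = φ x := by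
  obtain ⟨y, hy⟩ := fixed_of_galois (k := φ₀.fieldRange) (z φ₀) (by
    intro τ
    have h1 := hz (τ.restrictScalars K) φ₀
    rw [ku_fix] at h1
    exact h1)
  obtain ⟨x, hx⟩ := y.2
  have hx' : z φ₀ = φ₀ x := by
    rw [← hy]
    exact hx.symm
  refine ⟨x, fun φ => ?_⟩
  obtain ⟨σ, hσ⟩ := tr φ₀ φ
  rw [← hσ, ← hz, hx']
  rfl

end H24PD
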