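import Pool.Agent.H24.PD.Df
import Pool.Agent.H11.Divis2

/-!
Row L1 (about 60 lines): moving a point by a rational point.

PROOF. pmF : the points of V.baseChange F (or any curve VF over F with VF.map (algebraMap F M) = E) map to points of E fixed by Galois: pm (algebraMap F M) hVF, injective (pm_injective, Pool/Agent/H10/Pm.lean), and act hinv τ (pm .. Q) = pm .. Q (pm_pm, pm_congr, τ.commutes).
 Pool.Agent.H11.finite_torsion: {Q : E.Point | 4 • Q = 0} is finite (needs [E.IsElliptic], IsAlgClosed, CharZero; use `classical` instances). The map Q₀ ↦ P + pm Q₀ from the infinite type VF.toAffine.Point is injective, so some P + pm Q₀ is not in this finite set (Set.Infinite / Finite.of_injective argument).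
 P' := P + pm Q₀: act τ P' - P' = act τ P - P, and P' + P' + (P' + P') = 4 • P' ≠ 0.
-/

set_option autoImplicit false
open scoped Classical

open WeierstrassCurve Pool.Agent.H10

namespace H24PD

theorem lo1 {F M : Type*} [Field F] [Field M] [CharZero M] [IsAlgClosed M] [Algebra F M]
    {E : WeierstrassCurve M} [E.IsElliptic] (hinv : Inv F E) {VF : WeierstrassCurve F}
    (hVF : VF.map (algebraMap F M) = E) (hinf : Infinite VF.toAffine.Point)
    (P : E.toAffine.Point) : ∃ P' : E.toAffine.Point, P' + P' + (P' + P') ≠ 0 ∧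
      ∀ τ : M ≃ₐ[F] M, act hinv τ P' - P' = act hinv τ P - P := by
  have hfin : {Q : E.toAffine.Point | 4 • Q = 0}.Finite :=
    Pool.Agent.H11.finite_torsion E 4 (by norm_num)
  have hfix : ∀ (τ : M ≃ₐ[F] M) (Q : VF.toAffine.Point),
      act hinv τ (pm (algebraMap F M) hVF Q) = pm (algebraMap F M) hVF Q := by
    intro τ Q
    unfold act
    rw [pm_pm]
    exact pm_congr _ _ (fun x => τ.commutes x) Q
  have hex : ∃ Q₀ : VF.toAffine.Point, P + pm (algebraMap F M) hVF Q₀ ∉
      {Q : E.toAffine.Point | 4 • Q = 0} := by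
    by_contra hcon
    push Not at hcon
    have : Finite VF.toAffine.Point := by
      have hf : Finite {Q : E.toAffine.Point | 4 • Q = 0} := hfin
      refine Finite.of_injective (fun Q₀ => (⟨P + pm (algebraMap F M) hVF Q₀, hcon Q₀⟩ :
        {Q : E.toAffine.Point | 4 • Q = 0})) ?_
      intro a b hab
      have h1 := congrArg Subtype.val hab
      exact pm_injective _ hVF (add_left_cancel h1)
    exact not_finite VF.toAffine.Point
  obtain ⟨Q₀, hQ₀⟩ := hex
  refine ⟨P + pm (algebraMap F M) hVF Q₀, ?_, ?_⟩
  · intro h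
    apply hQ₀
    rw [Set.mem_setOf_eq, ← h]
    abel
  · intro τ
    rw [map_add, hfix τ Q₀]
    abel

end H24PD
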