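import Pool.Agent.H24.PD.Wp
import Pool.Agent.H24.PD.Hx
import Pool.Agent.H24.PD.Ip
import Pool.Agent.H24.PD.Em

/-!
Row L2 (about 150 lines): the local condition over a field F with algebraic closure M. USE ONLY THE STATEMENTS of Wp, Hx, Ip, Em.

PROOF. R := P + P. For τ: act τ R = (P + S) + (P + S) = R + (S + S) = R, so R is fixed; R ≠ 0 (R + R ≠ 0), so R = some X Y with τ X = X, τ Y = Y for all τ (pm_some, unfold act, Affine.Point.some.injEq): X = algebraMap F M x, Y = algebraMap F M y (fixed_of_galois, Pool/Agent/H10/Bridge3.lean). Y ≠ 0 (otherwise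
 R + R = 0: Affine.Point.add_self_of_Y_eq, h.negY_eq), so y ≠ 0; y^2 = x^3 + a x + b from the equation (h.equation_iff or Affine.equation_iff with the coefficients h1..h6) and injectivity of algebraMap.
 c i := 3 * e i ^ 2 + algebraMap a, which is (e i - e j)(e i - e k) by c_eq (apply c_eq to h, h.swap12 .. for i = 0, 1, 2; IsCub.swap12 etc. in Pool/Agent/H10/Cub.lean). g i := hx (e i) (c i) P. hx_sq (for h, h.swap12, h.swap13 etc.): g i ^ 2 = X - e i.
 For τ with π, S: τ (g i) = hx (τ (e i)) (τ (c i)) (act τ P) (hx_pm) = hx (e (π i)) (c (π i)) (P + S) = wp (e (π i)) S * g (π i) (hx_add; P + P ≠ 0). Put z i := g i / s i: τ (z i) = z (π i), the sign cancels. `ip` gives u : Fin 3 → F with E3 (e i) (alg ∘ u) = z i.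
 z'' := m3 a b u d (over F). To prove m3 a b d ![x,-1,0] = m3 a b z'' z'' it suffices (algebraMap injective, E3_inj over M, and m3 commutes with ring homomorphisms: simp [m3], Fin cases) that for every i the values at e i agree: by E3_m3: left side = E3 (e i) d * (X - e i) = s i^2 (X - e i),
 right side = (z i * s i^2)^2 = (g i * s i)^2 = (X - e i) s i^2.
-/

set_option autoImplicit false
open scoped Classical

open WeierstrassCurve Pool.Agent.H10 H76PP

namespace H24PD

theorem L2_m3 {F M : Type*} [Field F] [Field M] [Algebra F M] (a b : F) (u v : Fin 3 → F) :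
    (fun j => algebraMap F M (m3 a b u v j)) = m3 (algebraMap F M a) (algebraMap F M b)
      (fun j => algebraMap F M (u j)) (fun j => algebraMap F M (v j)) := by
  funext j
  fin_cases j
  · simp [m3]
  · simp [m3]
  · simp [m3]

theorem L2_key {M : Type*} [Field M] {E : WeierstrassCurve M} {e : Fin 3 → M}
    (h : IsCub E (e 0) (e 1) (e 2)) (i : Fin 3) : ∃ j k : Fin 3, IsCub E (e i) (e j) (e k) := by
  fin_cases i
  · exact ⟨1, 2, h⟩
  · exact ⟨0, 2, h.swap12⟩
  · exact ⟨1, 0, h.swap13⟩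

theorem lo2 {F M : Type*} [Field F] [Field M] [Algebra F M] [IsGalois F M] {a b : F}
    {E : WeierstrassCurve M} (hinv : Inv F E) {e : Fin 3 → M} (h : IsCub E (e 0) (e 1) (e 2))
    (h1 : E.a₁ = 0) (h2 : E.a₂ = 0) (h3 : E.a₃ = 0) (h4 : E.a₄ = algebraMap F M a)
    (h6 : E.a₆ = algebraMap F M b)
    {s : Fin 3 → M} (hs0 : ∀ i, s i ≠ 0) {d : Fin 3 → F}
    (hs : ∀ i, s i ^ 2 = E3 (e i) (fun j => algebraMap F M (d j))) (P : E.toAffine.Point)
    (hP : P + P + (P + P) ≠ 0)
    (H : ∀ τ : M ≃ₐ[F] M, ∃ (π : Fin 3 → Fin 3) (S : E.toAffine.Point), S + S = 0 ∧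
      act hinv τ P = P + S ∧
      ∀ i, τ (e i) = e (π i) ∧ τ (s i) = ((wp (e (π i)) S : ℤ) : M) * s (π i)) :
    ∃ (x y : F) (z : Fin 3 → F), y ≠ 0 ∧ y ^ 2 = x ^ 3 + a * x + b ∧
      m3 a b d ![x, -1, 0] = m3 a b z z := by
  obtain ⟨A, hA⟩ : ∃ A, A = algebraMap F M a := ⟨_, rfl⟩
  obtain ⟨B, hB⟩ : ∃ B, B = algebraMap F M b := ⟨_, rfl⟩
  have hP2 : P + P ≠ 0 := by
    intro h0
    rw [h0, add_zero] at hP
    exact hP rfl
  obtain ⟨X, Y, hXY, hR⟩ : ∃ X Y, ∃ hXY : E.toAffine.Nonsingular X Y, P + P = .some X Y hXY := by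
    rcases hR : P + P with _ | ⟨X, Y, n⟩
    · exact absurd hR hP2
    · exact ⟨X, Y, n, rfl⟩
  -- the double is fixed
  have hfix : ∀ τ : M ≃ₐ[F] M, τ X = X ∧ τ Y = Y := by
    intro τ
    obtain ⟨π, S, hS, hact, -⟩ := H τ
    have h7 : act hinv τ (P + P) = P + P := by
      rw [map_add, hact]
      calc P + S + (P + S) = P + P + (S + S) := by abel
        _ = P + P := by rw [hS, add_zero]
    rw [hR] at h7
    unfold act at h7
    rw [pm_some, Affine.Point.some.injEq] at h7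
    exact h7
  obtain ⟨x, hx'⟩ := fixed_of_galois (k := F) X (fun τ => (hfix τ).1)
  obtain ⟨y, hy'⟩ := fixed_of_galois (k := F) Y (fun τ => (hfix τ).2)
  have hY0 : Y ≠ 0 := by
    rintro h0
    apply hP
    rw [hR]
    apply Affine.Point.add_self_of_Y_eq
    rw [h.negY_eq, h0, neg_zero]
  have hy0 : y ≠ 0 := by
    rintro rfl
    rw [map_zero] at hy'
    exact hY0 hy'.symm
  have heq : Y ^ 2 = X ^ 3 + A * X + B := by
    have h7 := (Affine.equation_iff X Y).1 hXY.1
    rw [h1, h2, h3, h4, h6, ← hA, ← hB] at h7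
    linear_combination h7
  have heq' : y ^ 2 = x ^ 3 + a * x + b := by
    apply (algebraMap F M).injective
    rw [map_add, map_add, map_mul, map_pow, map_pow, hx', hy', ← hA, ← hB]
    exact heq
  -- the three functions
  have hroot : ∀ i, e i ^ 3 + A * e i + B = 0 := by
    intro i
    obtain ⟨j, k, hi⟩ := L2_key h i
    have q2 := hi.a₂
    have q4 := hi.a₄
    have q6 := hi.a₆
    rw [h2] at q2
    rw [h4, ← hA] at q4
    rw [h6, ← hB] at q6
    rw [q4, q6]
    linear_combination (e i) ^ 2 * q2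
  have hc : ∀ i, ∃ j k : Fin 3, IsCub E (e i) (e j) (e k) ∧
      (e i - e j) * (e i - e k) = 3 * e i ^ 2 + A := by
    intro i
    obtain ⟨j, k, hi⟩ := L2_key h i
    exact ⟨j, k, hi, c_eq hi h2 (h4.trans hA.symm)⟩
  obtain ⟨g, hg⟩ : ∃ g : Fin 3 → M, g = fun i => hx (e i) (3 * e i ^ 2 + A) P := ⟨_, rfl⟩
  have hgs : ∀ i, g i ^ 2 = X - e i := by
    intro i
    obtain ⟨j, k, hi, hci⟩ := hc i
    rw [hg]
    change hx (e i) (3 * e i ^ 2 + A) P ^ 2 = X - e i
    rw [← hci]
    exact hx_sq hi hR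
  have hga : ∀ (i : Fin 3) (S : E.toAffine.Point), S + S = 0 →
      hx (e i) (3 * e i ^ 2 + A) (P + S) = ((wp (e i) S : ℤ) : M) * g i := by
    intro i S hS
    obtain ⟨j, k, hi, hci⟩ := hc i
    rw [hg]
    change hx (e i) (3 * e i ^ 2 + A) (P + S) = ((wp (e i) S : ℤ) : M) *
      hx (e i) (3 * e i ^ 2 + A) P
    rw [← hci]
    exact hx_add hi hP2 hS
  have hgal : ∀ τ : M ≃ₐ[F] M, ∃ π : Fin 3 → Fin 3, ∀ i, τ (e i) = e (π i) ∧
      τ (g i / s i) = g (π i) / s (π i) := by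
    intro τ
    obtain ⟨π, S, hS, hact, hi⟩ := H τ
    refine ⟨π, fun i => ⟨(hi i).1, ?_⟩⟩
    have hA' : τ A = A := by
      rw [hA]
      exact τ.commutes a
    have h7 : τ (g i) = ((wp (e (π i)) S : ℤ) : M) * g (π i) := by
      have h8 := hx_pm (τ : M →+* M) (hinv τ) (e i) (3 * e i ^ 2 + A) P
      have h9 : (τ : M →+* M) (3 * e i ^ 2 + A) = 3 * e (π i) ^ 2 + A := by
        change τ (3 * e i ^ 2 + A) = 3 * e (π i) ^ 2 + A
        rw [map_add, map_mul, map_pow, map_ofNat, hA', (hi i).1]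
      have h10 : (τ : M →+* M) (e i) = e (π i) := (hi i).1
      have h11 : pm (τ : M →+* M) (hinv τ) P = P + S := hact
      rw [h9, h10, h11, hga (π i) S hS] at h8
      have h12 : g i = hx (e i) (3 * e i ^ 2 + A) P := by
        rw [hg]
      rw [h12]
      exact h8.symm
    have hw : ((wp (e (π i)) S : ℤ) : M) ≠ 0 := by
      have h8 : (((wp (e (π i)) S : ℤˣ) : ℤ) : M) * (((wp (e (π i)) S : ℤˣ) : ℤ) : M) = 1 := by
        rw [← Int.cast_mul, ← Units.val_mul, Int.units_mul_self, Units.val_one, Int.cast_one]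
      exact left_ne_zero_of_mul_eq_one h8
    rw [map_div₀, h7, (hi i).2, mul_div_mul_left _ _ hw]
  obtain ⟨u, hu⟩ := ip h.h12 h.h13 h.h23 hgal
  refine ⟨x, y, m3 a b u d, hy0, heq', ?_⟩
  have hE3 : (fun j => algebraMap F M (m3 a b d ![x, -1, 0] j)) =
      fun j => algebraMap F M (m3 a b (m3 a b u d) (m3 a b u d) j) := by
    apply E3_inj h.h12 h.h13 h.h23
    intro i
    rw [L2_m3, L2_m3, L2_m3, ← hA, ← hB, E3_m3 (hroot i), E3_m3 (hroot i), E3_m3 (hroot i), hu i,
      ← hs i]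
    have h7 : E3 (e i) (fun j => algebraMap F M ((![x, -1, 0] : Fin 3 → F) j)) = X - e i := by
      simp [E3, hx']
      ring
    rw [h7, ← hgs i]
    have h8 : g i / s i * s i ^ 2 = g i * s i := by
      field_simp [hs0 i]
    rw [h8]
    ring
  funext j
  apply (algebraMap F M).injective
  exact congrFun hE3 j

end H24PD
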