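import Pool.Agent.H24.PD.Df
import Pool.Agent.H10.GrHen

/-!
Row Lf (about 130 lines): infinitely many local points on y² = x³+ax+b.

PROOF. inf_fin: F = v.adicCompletion K, A, B the images of a, b in F. Choose a nonzero element p of F with v(p) < 1 (the image of a nonzero element of the prime ideal v, or a uniformizer: v.valuation_exists_uniformizer K). For n large (n ≥ n₀) s := p^n satisfies v(A s^4 + B s^6) < v(4) (v(s^4), v(s^6) → 0: the valuation is
 into WithZero (Multiplicative ℤ): v(s^4) = v(p)^(4n), v(p) ≤ exp (-1); A, B fixed). By Pool.Agent.H10.isSquare_one_add (Pool/Agent/H10/GrHen.lean) 1 + A s^4 + B s^6 = t^2, t ≠ 0 (its valuation is 1: v(4) ≤ 1). x := s^-2, y := t s^-3: y^2 = x^3 + A x + B, y ≠ 0, and the point (x,y) is nonsingular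
 (Affine.nonsingular_iff: 2 y ≠ 0 as CharZero). Different n give different x (v(x) = v(p)^(-2n) are different): an injective map from {n | n ≥ n₀} to the points, so the type of points is infinite.
 inf_real: for x real large (x ≥ 1 + |A| + |B|): x^3 + A x + B > 0, y := sqrt; nonsingular since y ≠ 0; injective in x. (For instance n ↦ point with x = n + 1 + |A| + |B|; then x^3 + A x + B ≥ x (x^2 - |A|) - |B| ≥ x - |B| > 0 since x^2 ≥ x ≥ 1 + |A|.)
-/

set_option autoImplicit false
open scoped Classical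

open WeierstrassCurve NumberField IsDedekindDomain Pool.Agent.H10

namespace H24PD

theorem inf_fin {K : Type} [Field K] [NumberField K] (v : HeightOneSpectrum (𝓞 K))
    (A B : v.adicCompletion K) :
    Infinite (⟨0, 0, 0, A, B⟩ : WeierstrassCurve (v.adicCompletion K)).toAffine.Point := by
  have hchar : CharZero (v.adicCompletion K) :=
    charZero_of_injective_algebraMap (algebraMap K (v.adicCompletion K)).injective
  have h2 : (2 : v.adicCompletion K) ≠ 0 := by norm_num
  have h4 : (4 : v.adicCompletion K) ≠ 0 := by norm_num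
  obtain ⟨π, hπ⟩ := v.valuation_exists_uniformizer K
  set p : v.adicCompletion K := (π : v.adicCompletion K) with hp
  have hvp : Valued.v p = WithZero.exp (-1 : ℤ) := by
    rw [hp, HeightOneSpectrum.valuedAdicCompletion_eq_valuation', hπ]
  have hvp1 : Valued.v p < 1 := by
    rw [hvp, ← WithZero.exp_zero, WithZero.exp_lt_exp]
    norm_num
  have hvp0 : 0 < Valued.v p := by
    rw [hvp]
    exact WithZero.exp_pos
  have hp0 : p ≠ 0 := by
    intro h
    rw [h, map_zero] at hvp0
    exact lt_irrefl _ hvp0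
  set M : WithZero (Multiplicative ℤ) := max 1 (max (Valued.v A) (Valued.v B)) with hM
  have hM0 : 0 < M := lt_of_lt_of_le zero_lt_one (le_max_left _ _)
  set g : WithZero (Multiplicative ℤ) := min (Valued.v (4 : v.adicCompletion K)) 1 with hg
  have hg0 : 0 < g := lt_min (zero_lt_iff.2 ((Valuation.ne_zero_iff _).2 h4)) zero_lt_one
  have hgM : g / M ≠ 0 := div_ne_zero hg0.ne' hM0.ne'
  obtain ⟨n₀, hn₀⟩ := exists_pow_lt₀ hvp1 (Units.mk0 (g / M) hgM)
  rw [Units.val_mk0, lt_div_iff₀ hM0] at hn₀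
  -- the small elements
  have hz : ∀ n : ℕ, Valued.v (A * (p ^ (n₀ + n)) ^ 4 + B * (p ^ (n₀ + n)) ^ 6) < g := by
    intro n
    have hs1 : Valued.v (p ^ (n₀ + n)) ≤ 1 := by
      rw [map_pow]
      exact pow_le_one' hvp1.le _
    have hs : Valued.v (p ^ (n₀ + n)) * M < g := by
      refine lt_of_le_of_lt ?_ hn₀
      rw [map_pow, pow_add]
      have h5 : (Valued.v p) ^ n ≤ 1 := pow_le_one' hvp1.le _
      calc (Valued.v p) ^ n₀ * (Valued.v p) ^ n * M ≤ (Valued.v p) ^ n₀ * 1 * M := by gcongr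
        _ = (Valued.v p) ^ n₀ * M := by rw [mul_one]
    have hA : Valued.v (A * (p ^ (n₀ + n)) ^ 4) < g := by
      refine lt_of_le_of_lt ?_ hs
      rw [map_mul, map_pow _ _ 4, mul_comm]
      have h6 : Valued.v A ≤ M := (le_max_left _ _).trans (le_max_right _ _)
      have h7 : (Valued.v (p ^ (n₀ + n))) ^ 4 ≤ Valued.v (p ^ (n₀ + n)) := by
        calc (Valued.v (p ^ (n₀ + n))) ^ 4 = Valued.v (p ^ (n₀ + n)) *
              (Valued.v (p ^ (n₀ + n))) ^ 3 := by rw [← pow_succ']
          _ ≤ Valued.v (p ^ (n₀ + n)) * 1 := by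
              gcongr
              exact pow_le_one' hs1 3
          _ = _ := mul_one _
      exact mul_le_mul' h7 h6
    have hB : Valued.v (B * (p ^ (n₀ + n)) ^ 6) < g := by
      refine lt_of_le_of_lt ?_ hs
      rw [map_mul, map_pow _ _ 6, mul_comm]
      have h6 : Valued.v B ≤ M := (le_max_right _ _).trans (le_max_right _ _)
      have h7 : (Valued.v (p ^ (n₀ + n))) ^ 6 ≤ Valued.v (p ^ (n₀ + n)) := by
        calc (Valued.v (p ^ (n₀ + n))) ^ 6 = Valued.v (p ^ (n₀ + n)) *
              (Valued.v (p ^ (n₀ + n))) ^ 5 := by rw [← pow_succ']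
          _ ≤ Valued.v (p ^ (n₀ + n)) * 1 := by
              gcongr
              exact pow_le_one' hs1 5
          _ = _ := mul_one _
      exact mul_le_mul' h7 h6
    exact lt_of_le_of_lt (Valuation.map_add _ _ _) (max_lt hA hB)
  have hsq : ∀ n : ℕ, ∃ t : v.adicCompletion K, t ≠ 0 ∧
      1 + (A * (p ^ (n₀ + n)) ^ 4 + B * (p ^ (n₀ + n)) ^ 6) = t * t := by
    intro n
    obtain ⟨t, ht⟩ := isSquare_one_add h2 (lt_of_lt_of_le (hz n) (min_le_left _ _))
    refine ⟨t, ?_, ht⟩
    rintro rfl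
    rw [mul_zero] at ht
    have h5 : A * (p ^ (n₀ + n)) ^ 4 + B * (p ^ (n₀ + n)) ^ 6 = -1 := by
      linear_combination ht
    have h6 := lt_of_lt_of_le (hz n) (min_le_right _ _)
    rw [h5, Valuation.map_neg, map_one] at h6
    exact lt_irrefl _ h6
  choose t ht0 ht using hsq
  have hns : ∀ n : ℕ, (⟨0, 0, 0, A, B⟩ : WeierstrassCurve (v.adicCompletion K)).toAffine.Nonsingular
      (((p ^ (n₀ + n)) ^ 2)⁻¹) (t n * ((p ^ (n₀ + n)) ^ 3)⁻¹) := by
    intro n
    have hs0 : p ^ (n₀ + n) ≠ 0 := pow_ne_zero _ hp0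
    rw [WeierstrassCurve.Affine.nonsingular_iff, WeierstrassCurve.Affine.equation_iff]
    constructor
    · have h5 := ht n
      generalize p ^ (n₀ + n) = s at hs0 h5
      field_simp
      linear_combination -h5
    · right
      intro h6
      have h7 : 2 * (t n * ((p ^ (n₀ + n)) ^ 3)⁻¹) = 0 := by
        simp only [WeierstrassCurve.Affine.negY] at h6
        linear_combination h6
      exact (mul_ne_zero h2 (mul_ne_zero (ht0 n) (inv_ne_zero (pow_ne_zero _ hs0)))) h7
  refine Infinite.of_injective (fun n : ℕ => WeierstrassCurve.Affine.Point.some _ _ (hns n)) ?_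
  intro m n hmn
  simp only [WeierstrassCurve.Affine.Point.some.injEq] at hmn
  have h5 := hmn.1
  rw [inv_inj, ← pow_mul, ← pow_mul] at h5
  have h6 := congrArg Valued.v h5
  rw [map_pow, map_pow] at h6
  have h7 : (n₀ + m) * 2 = (n₀ + n) * 2 := by
    rcases lt_trichotomy ((n₀ + m) * 2) ((n₀ + n) * 2) with h8 | h8 | h8
    · exact absurd h6 (pow_lt_pow_right_of_lt_one₀ hvp0 hvp1 h8).ne'
    · exact h8
    · exact absurd h6 (pow_lt_pow_right_of_lt_one₀ hvp0 hvp1 h8).ne
  omega

theorem inf_real (A B : ℝ) : Infinite (⟨0, 0, 0, A, B⟩ : WeierstrassCurve ℝ).toAffine.Point := by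
  have hpos : ∀ n : ℕ, 0 < ((n : ℝ) + 1 + |A| + |B|) ^ 3 + A * ((n : ℝ) + 1 + |A| + |B|) + B := by
    intro n
    have hA := neg_abs_le A
    have hB := neg_abs_le B
    have hA0 := abs_nonneg A
    have hB0 := abs_nonneg B
    have hn : (0 : ℝ) ≤ n := Nat.cast_nonneg n
    set x : ℝ := (n : ℝ) + 1 + |A| + |B| with hx
    have hx1 : 1 ≤ x := by linarith
    have hx2 : 1 + |A| + |B| ≤ x := by linarith
    have h3 : x * (1 + |A| + |B|) ≤ x ^ 2 := by nlinarith
    have h4 : x ^ 2 ≤ x ^ 3 := by nlinarith [sq_nonneg x]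
    have h5 : -|A| * x ≤ A * x := by nlinarith
    nlinarith
  have hns : ∀ n : ℕ, (⟨0, 0, 0, A, B⟩ : WeierstrassCurve ℝ).toAffine.Nonsingular
      ((n : ℝ) + 1 + |A| + |B|)
      (Real.sqrt (((n : ℝ) + 1 + |A| + |B|) ^ 3 + A * ((n : ℝ) + 1 + |A| + |B|) + B)) := by
    intro n
    rw [WeierstrassCurve.Affine.nonsingular_iff, WeierstrassCurve.Affine.equation_iff]
    constructor
    · have h5 := Real.sq_sqrt (hpos n).le
      linear_combination h5
    · right
      intro h6
      have h7 := Real.sqrt_pos.2 (hpos n)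
      simp only [WeierstrassCurve.Affine.negY] at h6
      linarith
  refine Infinite.of_injective (fun n : ℕ => WeierstrassCurve.Affine.Point.some _ _ (hns n)) ?_
  intro m n hmn
  simp only [WeierstrassCurve.Affine.Point.some.injEq] at hmn
  have h5 := hmn.1
  have h6 : (m : ℝ) = n := by linarith
  exact_mod_cast h6

end H24PD
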