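import Pool.Agent.H24.PD.L1
import Pool.Agent.H24.PD.L2
import Pool.Agent.H10.Func6

/-!
Row Lo (about 150 lines): a class which is trivial over F satisfies the local condition over F. USE ONLY THE STATEMENTS of L1, L2, Em, Wp.

PROOF. Ω = AlgebraicClosure K, M = AlgebraicClosure F (CharZero F by Pool.Agent.H10.charZero_of_alg (K := K), so IsGalois F M), V = ⟨0,0,0,a,b⟩, E = V.baseChange M. emb3 (for Ω): φ₁ φ₂ φ₃, q := ![φ₁, φ₂, φ₃]; e i := ι (q i θ), s i := ι (r (q i)). e i ≠ e j for i ≠ j (ι injective, emb_ext). emb_root mapped by ι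
 (ι.commutes, IsScalarTower.algebraMap_apply K F M) and isCub_of give IsCub E (e 0) (e 1) (e 2) (E.a₁ = 0 etc.: E is a map of V: simp [V, WeierstrassCurve.baseChange, WeierstrassCurve.map]). E is elliptic (V is elliptic by `elliptic`, instance for baseChange / map). s i ≠ 0, s i ^ 2 = E3 (e i) (algebraMap F M (algebraMap K F (d j)))
 by hd, `ev` unfolded and φ.commutes.
 ht gives P : E.Point with pm ι _ (f σ) = act (inv_bc' V) τ P - P whenever τ ∘ ι = ι ∘ σ. lo1 (hVF : (V.baseChange F).map (algebraMap F M) = V.baseChange M; hinv := inv_bc' V) gives P' with P'+P'+(P'+P') ≠ 0 and the same differences. Apply lo2 to P' (with a, b, d of F the images under algebraMap K F): for τ take σ with τ ∘ ι = ι ∘ σ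
 (Pool.Agent.H10.exists_restrict, Pool/Agent/H10/Sha.lean, ι and τ; it gives an equation of AlgHom's, apply congrArg), S := pm ι _ (f σ) (S + S = pm (f σ + f σ) = 0), act τ P' = P' + S. For every i there is a j with mv σ (q i) = q j (emb3), π i := j. τ (e i) = ι (σ (q i θ)) = ι (q j θ) = e j; τ (s i) = ι (σ (r (q i))) =
 ι (wp (q j θ) (f σ) * r (q j)) (he), and wp (e j) S = wp (q j θ) (f σ) by wp_pm.
-/

set_option autoImplicit false
open scoped Classical

open WeierstrassCurve Pool.Agent.H10 H76PP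

namespace H24PD

theorem lo {K L : Type} [Field K] [NumberField K] [Field L] [Algebra K L] {a b : K} {θ : L}
    (hL : Cub K L a b θ) {F : Type} [Field F] [Algebra K F]
    (hinf : Infinite ((⟨0, 0, 0, a, b⟩ : WeierstrassCurve K).baseChange F).toAffine.Point)
    {f : Coch K (⟨0, 0, 0, a, b⟩ : WeierstrassCurve K)} (h2 : ∀ σ, f σ + f σ = 0)
    {r : (L →ₐ[K] AlgebraicClosure K) → AlgebraicClosure K} (hr : ∀ φ, r φ ≠ 0)
    (he : ∀ σ φ, σ (r φ) = ((wp (mv σ φ θ) (f σ) : ℤ) : AlgebraicClosure K) * r (mv σ φ))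
    {d : Fin 3 → K} (hd : ∀ φ, r φ ^ 2 = φ (ev θ d))
    (ι : AlgebraicClosure K →ₐ[K] AlgebraicClosure F)
    (ht : TrivAt (F := F) (inv_bc' (⟨0, 0, 0, a, b⟩ : WeierstrassCurve K))
      (ι : AlgebraicClosure K →+* AlgebraicClosure F) (map_bc _ ι) f) :
    LC (algebraMap K F) a b d := by
  have : CharZero F := charZero_of_alg (K := K)
  have hell : (⟨0, 0, 0, a, b⟩ : WeierstrassCurve K).IsElliptic := elliptic hL
  have hE : ((⟨0, 0, 0, a, b⟩ : WeierstrassCurve K).baseChange
      (AlgebraicClosure F)).IsElliptic := by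
    rw [WeierstrassCurve.baseChange]
    infer_instance
  obtain ⟨φ₁, φ₂, φ₃, n12, n13, n23, hall⟩ := emb3 (Ω := AlgebraicClosure K) hL
  obtain ⟨q, q0, q1, q2⟩ : ∃ q : Fin 3 → (L →ₐ[K] AlgebraicClosure K),
      q 0 = φ₁ ∧ q 1 = φ₂ ∧ q 2 = φ₃ := ⟨![φ₁, φ₂, φ₃], rfl, rfl, rfl⟩
  have hq : ∀ φ : L →ₐ[K] AlgebraicClosure K, ∃ i, φ = q i := by
    intro φ
    rcases hall φ with h | h | h
    · exact ⟨0, by rw [h, q0]⟩
    · exact ⟨1, by rw [h, q1]⟩
    · exact ⟨2, by rw [h, q2]⟩
  have hal : ∀ c : K, ι (algebraMap K (AlgebraicClosure K) c) =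
      algebraMap F (AlgebraicClosure F) (algebraMap K F c) := by
    intro c
    rw [ι.commutes, IsScalarTower.algebraMap_apply K F (AlgebraicClosure F)]
  have hroot : ∀ i, ι (q i θ) ^ 3 + algebraMap F (AlgebraicClosure F) (algebraMap K F a) *
      ι (q i θ) + algebraMap F (AlgebraicClosure F) (algebraMap K F b) = 0 := by
    intro i
    have h := congrArg ι (emb_root hL (q i))
    rw [map_add, map_add, map_mul, map_pow, map_zero, hal, hal] at h
    exact h
  have hne : ∀ {φ ψ : L →ₐ[K] AlgebraicClosure K}, φ ≠ ψ → ι (φ θ) ≠ ι (ψ θ) := by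
    intro φ ψ h h'
    exact h (emb_ext hL (ι.toRingHom.injective h'))
  have hV : ((⟨0, 0, 0, a, b⟩ : WeierstrassCurve K).baseChange F).map
      (algebraMap F (AlgebraicClosure F)) =
      (⟨0, 0, 0, a, b⟩ : WeierstrassCurve K).baseChange (AlgebraicClosure F) := by
    rw [WeierstrassCurve.baseChange, WeierstrassCurve.baseChange, WeierstrassCurve.map_map,
      ← IsScalarTower.algebraMap_eq K F (AlgebraicClosure F)]
  have c1 : ((⟨0, 0, 0, a, b⟩ : WeierstrassCurve K).baseChange (AlgebraicClosure F)).a₁ = 0 :=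
    map_zero (algebraMap K (AlgebraicClosure F))
  have c2 : ((⟨0, 0, 0, a, b⟩ : WeierstrassCurve K).baseChange (AlgebraicClosure F)).a₂ = 0 :=
    map_zero (algebraMap K (AlgebraicClosure F))
  have c3 : ((⟨0, 0, 0, a, b⟩ : WeierstrassCurve K).baseChange (AlgebraicClosure F)).a₃ = 0 :=
    map_zero (algebraMap K (AlgebraicClosure F))
  have c4 : ((⟨0, 0, 0, a, b⟩ : WeierstrassCurve K).baseChange (AlgebraicClosure F)).a₄ =
      algebraMap F (AlgebraicClosure F) (algebraMap K F a) :=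
    IsScalarTower.algebraMap_apply K F (AlgebraicClosure F) a
  have c6 : ((⟨0, 0, 0, a, b⟩ : WeierstrassCurve K).baseChange (AlgebraicClosure F)).a₆ =
      algebraMap F (AlgebraicClosure F) (algebraMap K F b) :=
    IsScalarTower.algebraMap_apply K F (AlgebraicClosure F) b
  have hcub : IsCub ((⟨0, 0, 0, a, b⟩ : WeierstrassCurve K).baseChange (AlgebraicClosure F))
      (ι (q 0 θ)) (ι (q 1 θ)) (ι (q 2 θ)) := by
    refine isCub_of c1 c2 c3 c4 c6 two_ne_zero (hroot 0) (hroot 1) (hroot 2) (hne ?_) (hne ?_)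
      (hne ?_)
    · rw [q0, q1]
      exact n12
    · rw [q0, q2]
      exact n13
    · rw [q1, q2]
      exact n23
  obtain ⟨P, hP⟩ := ht
  obtain ⟨P', hP', hPP⟩ := lo1 (F := F) (inv_bc' (⟨0, 0, 0, a, b⟩ : WeierstrassCurve K)) hV hinf P
  have hs0 : ∀ i, ι (r (q i)) ≠ 0 := by
    intro i h
    exact hr (q i) (ι.toRingHom.injective (h.trans (map_zero ι).symm))
  have hs : ∀ i, ι (r (q i)) ^ 2 = E3 (ι (q i θ)) (fun j =>
      algebraMap F (AlgebraicClosure F) (algebraMap K F (d j))) := by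
    intro i
    rw [← map_pow, hd]
    unfold ev E3
    rw [map_add, map_add, map_mul, map_mul, map_pow, map_add, map_add, map_mul, map_mul, map_pow,
      (q i).commutes, (q i).commutes, (q i).commutes, hal, hal, hal]
  refine lo2 (a := algebraMap K F a) (b := algebraMap K F b)
    (inv_bc' (⟨0, 0, 0, a, b⟩ : WeierstrassCurve K)) (e := fun i => ι (q i θ)) hcub c1 c2 c3 c4 c6
    (s := fun i => ι (r (q i))) hs0 (d := fun j => algebraMap K F (d j)) hs P' hP' ?_
  intro τ
  obtain ⟨σ, hσ⟩ := exists_restrict (F := F) ι τ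
  have hx : ∀ x, τ (ι x) = ι (σ x) := fun x =>
    congrArg (fun φ : AlgebraicClosure K →ₐ[K] AlgebraicClosure F => φ x) hσ
  choose π hπ using fun i => hq (mv σ (q i))
  refine ⟨π, pm (ι : AlgebraicClosure K →+* AlgebraicClosure F) (map_bc _ ι) (f σ), ?_, ?_,
    fun i => ⟨?_, ?_⟩⟩
  · rw [← map_add, h2, map_zero]
  · rw [hP τ σ hx, ← hPP τ, add_sub_cancel]
  · change τ (ι (q i θ)) = ι (q (π i) θ)
    rw [hx, ← hπ i]
    rfl
  · change τ (ι (r (q i))) = ((wp (ι (q (π i) θ))
      (pm (ι : AlgebraicClosure K →+* AlgebraicClosure F) (map_bc _ ι) (f σ)) : ℤ) :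
        AlgebraicClosure F) * ι (r (q (π i)))
    rw [hx, he, map_mul, map_intCast, hπ i]
    congr 3
    exact (wp_pm (ι : AlgebraicClosure K →+* AlgebraicClosure F)
      (map_bc _ ι) (q (π i) θ) (f σ)).symm

end H24PD
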