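import Pool.Agent.H24.PD.Lo
import Pool.Agent.H24.PD.Lf
import Pool.Agent.H10.RealPl
import Pool.Agent.H10.Hasse

/-!
Row Lr (about 100 lines): the local conditions at all places. USE ONLY THE STATEMENTS of Lo, Lf.

PROOF. V := ⟨0,0,0,a,b⟩; V.baseChange F = ⟨0,0,0,algebraMap a,algebraMap b⟩ (unfold baseChange, map; map_zero). isLocTriv_iff (Pool/Agent/H10/Func4.lean) for hl.
 Finite v: F := v.adicCompletion K, ι by Pool.Agent.H10.exists_embedding K F (Pool/Agent/H10/Hasse.lean), ht := (isLocTriv_iff f).1 hl |>.1 v ι, hinf := inf_fin; apply `lo`.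
 Real s: Pool.Agent.H10.exists_completion s (Pool/Agent/H10/RealPl.lean) gives v : InfinitePlace K and ψ : v.Completion →+* ℝ with ψ (algebraMap x) = s x. letI : Algebra K ℝ := s.toAlgebra (then AlgebraicClosure ℝ is an algebra over K in a tower). ι₀ : AlgebraicClosure K →ₐ[K] AlgebraicClosure v.Completion and
 ι' : AlgebraicClosure K →ₐ[K] AlgebraicClosure ℝ by exists_embedding. ((isLocTriv_iff f).1 hl).2 v ι₀ is a TrivAt; TrivAt.trans (Pool/Agent/H10/Func1.lean; used in exactly this way at the end of Pool/Agent/H10/Func6.lean: isLocTriv_cor) with k := ψ, j := algebraMap K v.Completion gives the TrivAt for F' = ℝ, ι', inv_bc' V.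
 `lo` for F := ℝ with inf_real (s a) (s b); algebraMap K ℝ = s by rfl.
-/

set_option autoImplicit false
open scoped Classical

open WeierstrassCurve NumberField IsDedekindDomain Pool.Agent.H10 H76PP

namespace H24PD

private lemma Lr_bc {K F : Type} [Field K] [Field F] [Algebra K F] (a b : K) :
    (⟨0, 0, 0, a, b⟩ : WeierstrassCurve K).baseChange F =
      ⟨0, 0, 0, algebraMap K F a, algebraMap K F b⟩ := by
  unfold WeierstrassCurve.baseChange WeierstrassCurve.map
  simp only [map_zero]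

private theorem Lr_real {K L : Type} [Field K] [NumberField K] [Field L] [Algebra K L]
    [Algebra K ℝ] {a b : K} {θ : L}
    (hL : Cub K L a b θ) {f : Coch K (⟨0, 0, 0, a, b⟩ : WeierstrassCurve K)}
    (hc : IsCocycle K _ f) (hl : IsLocTriv K _ f) (h2 : ∀ σ, f σ + f σ = 0)
    {r : (L →ₐ[K] AlgebraicClosure K) → AlgebraicClosure K} (hr : ∀ φ, r φ ≠ 0)
    (he : ∀ σ φ, σ (r φ) = ((wp (mv σ φ θ) (f σ) : ℤ) : AlgebraicClosure K) * r (mv σ φ))
    {d : Fin 3 → K} (hd : ∀ φ, r φ ^ 2 = φ (ev θ d)) :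
    LC (algebraMap K ℝ) a b d := by
  obtain ⟨v, ψ, hψ⟩ := exists_completion (algebraMap K ℝ)
  have hc' := (isCocycle_iff f).1 hc
  have hc0 : CharZero v.Completion := charZero_of_alg (K := K)
  obtain ⟨ι₀⟩ := exists_embedding K v.Completion
  obtain ⟨ι'⟩ := exists_embedding K ℝ
  have H := ((isLocTriv_iff f).1 hl).2 v ι₀
  have H' : TrivAt (F := ℝ) (inv_bc' (⟨0, 0, 0, a, b⟩ : WeierstrassCurve K))
      (ι' : AlgebraicClosure K →+* AlgebraicClosure ℝ) (map_bc _ ι') f :=
    H.trans hc' (V := (⟨0, 0, 0, a, b⟩ : WeierstrassCurve K)) rfl (k := ψ)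
      (j := algebraMap K v.Completion)
      (fun x => by
        change ι₀ (algebraMap K (AlgebraicClosure K) x) = _
        rw [ι₀.commutes, IsScalarTower.algebraMap_apply K v.Completion
          (AlgebraicClosure v.Completion)])
      (inv_bc' (⟨0, 0, 0, a, b⟩ : WeierstrassCurve K)) ι' (map_bc _ ι')
      (fun x => by
        change ι' (algebraMap K (AlgebraicClosure K) x) = _
        rw [ι'.commutes, hψ, IsScalarTower.algebraMap_apply K ℝ (AlgebraicClosure ℝ)])
  have hinf : Infinite ((⟨0, 0, 0, a, b⟩ : WeierstrassCurve K).baseChange ℝ).toAffine.Point := by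
    rw [Lr_bc]
    exact inf_real _ _
  exact lo hL hinf h2 hr he hd ι' H'

theorem lr {K L : Type} [Field K] [NumberField K] [Field L] [Algebra K L] {a b : K} {θ : L}
    (hL : Cub K L a b θ) {f : Coch K (⟨0, 0, 0, a, b⟩ : WeierstrassCurve K)}
    (hc : IsCocycle K _ f) (hl : IsLocTriv K _ f) (h2 : ∀ σ, f σ + f σ = 0)
    {r : (L →ₐ[K] AlgebraicClosure K) → AlgebraicClosure K} (hr : ∀ φ, r φ ≠ 0)
    (he : ∀ σ φ, σ (r φ) = ((wp (mv σ φ θ) (f σ) : ℤ) : AlgebraicClosure K) * r (mv σ φ))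
    {d : Fin 3 → K} (hd : ∀ φ, r φ ^ 2 = φ (ev θ d)) :
    (∀ v : HeightOneSpectrum (𝓞 K), LC (algebraMap K (v.adicCompletion K)) a b d) ∧
      ∀ s : K →+* ℝ, LC s a b d := by
  constructor
  · intro v
    obtain ⟨ι⟩ := exists_embedding K (v.adicCompletion K)
    have H := ((isLocTriv_iff f).1 hl).1 v ι
    have hinf : Infinite ((⟨0, 0, 0, a, b⟩ : WeierstrassCurve K).baseChange
        (v.adicCompletion K)).toAffine.Point := by
      rw [Lr_bc]
      exact inf_fin v _ _
    exact lo hL hinf h2 hr he hd ι H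
  · intro s
    exact @Lr_real K L _ _ _ _ s.toAlgebra a b θ hL f hc hl h2 r hr he d hd

end H24PD
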