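import Pool.Agent.H24.PD.Sc
import Pool.Agent.H24.PD.Fi
import Pool.Agent.H24.PD.Cu

/-!
Block D of the project MP_78d38b_PP: two-descent (assembly, proved from the rows).
-/

set_option autoImplicit false
open scoped Classical

open WeierstrassCurve NumberField IsDedekindDomain Pool.Agent.H10 H76PP

namespace H24PD

/-- Two-descent on the Tate-Shafarevich group. -/
theorem descent {K : Type} [Field K] [NumberField K] {L : Type} [Field L] [NumberField L]
    [Algebra K L] {a b : K} {θ : L} (hL : Cub K L a b θ) (hS : SelTriv K L a b θ) :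
    Finite (⟨0, 0, 0, a, b⟩ : WeierstrassCurve K).toAffine.Point ∧
      Pool.Agent.H10.Sha2Trivial K (⟨0, 0, 0, a, b⟩ : WeierstrassCurve K) := by
  haveI := elliptic hL
  exact fi fun f hf => sc hL hS hf

/-- Existence of the cubic extension. -/
theorem exists_cub {K : Type} [Field K] [NumberField K] {A B : K}
    (h : ∀ t : K, t ^ 3 + A * t + B ≠ 0) :
    ∃ (L : Type) (_ : Field L) (_ : NumberField L) (_ : Algebra K L) (θ : L), Cub K L A B θ :=
  cu h

end H24PD
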