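import Pool.Agent.H24.PD.Ku

/-!
Row Sd (about 90 lines): the class attached to a twisted family of signs of product one.

PROOF. There is φ₀ : L →ₐ[K] Ω (IsAlgClosed.lift, L algebraic over K). `ku` gives r. z φ := r φ ^ 2 satisfies σ (z φ) = z (mv σ φ) (the sign squares to one), so `fd` gives δ with r φ ^ 2 = φ δ; δ ≠ 0 since r φ₀ ≠ 0.
 p := ∏ φ, r φ (finite product, Fintype (L →ₐ[K] Ω) instance as FiniteDimensional K L). σ p = (∏ φ, c σ (mv σ φ)) * ∏ φ, r (mv σ φ) = (∏ φ, c σ φ) * p = p: reindex by the bijection mv σ (as in sum_mv of Pool/Agent/H10/Func2.lean, the product version: Fintype.prod_bijective) and hp. So p = algebraMap K Ω t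
 (fixed_of_galois, Pool/Agent/H10/Bridge3.lean). Algebra.norm_eq_prod_embeddings K Ω: algebraMap K Ω (norm δ) = ∏ φ, φ δ = p ^ 2 = algebraMap (t ^ 2); injectivity.
-/

set_option autoImplicit false
open scoped Classical

open WeierstrassCurve Pool.Agent.H10

namespace H24PD

variable {K L Ω : Type*} [Field K] [Field L] [Field Ω] [Algebra K L] [Algebra K Ω]

theorem prod_mv' {M : Type*} [CommMonoid M] [Fintype (L →ₐ[K] Ω)] (σ : Ω ≃ₐ[K] Ω)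
    (g : (L →ₐ[K] Ω) → M) :
    ∏ φ : L →ₐ[K] Ω, g (mv σ φ) = ∏ φ : L →ₐ[K] Ω, g φ := by
  apply Fintype.prod_bijective (mv σ)
  · constructor
    · intro φ ψ hφψ
      ext x
      have := congrArg (fun θ : L →ₐ[K] Ω => θ x) hφψ
      exact σ.injective this
    · intro φ
      refine ⟨mv σ⁻¹ φ, ?_⟩
      rw [← mv_mul, mul_inv_cancel, mv_one]
  · intro _; rfl

theorem units_cast_sq {R : Type*} [CommRing R] (u : ℤˣ) : ((u : ℤ) : R) ^ 2 = 1 := by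
  rw [← Int.cast_pow, ← Units.val_pow_eq_pow_val, Int.units_sq, Units.val_one, Int.cast_one]

theorem units_cast_prod {R ι : Type*} [CommRing R] [Fintype ι] (f : ι → ℤˣ) :
    ∏ i, (((f i : ℤˣ) : ℤ) : R) = (((∏ i, f i : ℤˣ) : ℤ) : R) := by
  rw [Units.coe_prod, Int.cast_prod]

theorem sd [CharZero K] [FiniteDimensional K L] [IsAlgClosed Ω] [IsGalois K Ω]
    (c : (Ω ≃ₐ[K] Ω) → (L →ₐ[K] Ω) → ℤˣ) (hc : ∀ φ, IsLocallyConstant fun σ => c σ φ)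
    (hm : ∀ σ τ φ, c (σ * τ) (mv σ φ) = c σ (mv σ φ) * c τ φ) (hp : ∀ σ, ∏ φ, c σ φ = 1) :
    ∃ (r : (L →ₐ[K] Ω) → Ω) (δ : L), (∀ φ, r φ ≠ 0) ∧
      (∀ σ φ, σ (r φ) = ((c σ (mv σ φ) : ℤ) : Ω) * r (mv σ φ)) ∧ (∀ φ, r φ ^ 2 = φ δ) ∧ δ ≠ 0 ∧
      IsSquare (Algebra.norm K δ) := by
  let φ₀ : L →ₐ[K] Ω := IsAlgClosed.lift
  obtain ⟨r, hr0, hr⟩ := ku c hc hm φ₀
  have hz : ∀ (σ : Ω ≃ₐ[K] Ω) (φ : L →ₐ[K] Ω), σ (r φ ^ 2) = r (mv σ φ) ^ 2 := by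
    intro σ φ
    rw [map_pow, hr, mul_pow, units_cast_sq, one_mul]
  obtain ⟨δ, hδ⟩ := fd (fun φ => r φ ^ 2) hz φ₀
  have hδ0 : δ ≠ 0 := by
    rintro rfl
    have h := hδ φ₀
    simp only [map_zero] at h
    exact hr0 φ₀ (pow_eq_zero_iff (two_ne_zero) |>.1 h)
  have hfix : ∀ σ : Ω ≃ₐ[K] Ω, σ (∏ φ, r φ) = ∏ φ, r φ := by
    intro σ
    rw [map_prod]
    simp_rw [hr]
    rw [Finset.prod_mul_distrib, prod_mv' σ (fun φ => r φ),
      prod_mv' σ (fun φ => ((c σ φ : ℤ) : Ω)), units_cast_prod, hp, Units.val_one, Int.cast_one,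
      one_mul]
  obtain ⟨t, ht⟩ := fixed_of_galois _ hfix
  refine ⟨r, δ, hr0, hr, hδ, hδ0, t, ?_⟩
  apply (algebraMap K Ω).injective
  rw [Algebra.norm_eq_prod_embeddings K Ω, map_mul, ht, ← pow_two, ← Finset.prod_pow]
  exact Finset.prod_congr rfl (fun φ _ => (hδ φ).symm)

/-- If the class is a square, the family of signs is a coboundary of a family of product one. -/
theorem sq_family [CharZero K] [FiniteDimensional K L] [IsAlgClosed Ω] [IsGalois K Ω]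
    (h3 : Odd (Module.finrank K L)) {c : (Ω ≃ₐ[K] Ω) → (L →ₐ[K] Ω) → ℤˣ}
    {r : (L →ₐ[K] Ω) → Ω} {δ : L} (hr : ∀ φ, r φ ≠ 0)
    (he : ∀ σ φ, σ (r φ) = ((c σ (mv σ φ) : ℤ) : Ω) * r (mv σ φ)) (hd : ∀ φ, r φ ^ 2 = φ δ)
    (hs : IsSquare δ) : ∃ ε : (L →ₐ[K] Ω) → ℤˣ, ∏ φ, ε φ = 1 ∧
      ∀ σ φ, c σ (mv σ φ) = ε φ * ε (mv σ φ) := by
  -- δ = t * t, r φ = ± φ t =: ε φ * φ t (t ≠ 0). σ (r φ) = ε φ * (mv σ φ) t, and it is
  -- c σ (mv σ φ) * ε (mv σ φ) * (mv σ φ) t, hence ε φ = c σ (mv σ φ) * ε (mv σ φ).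
  -- If ∏ ε = -1 replace ε by -ε (the number of embeddings is finrank K L, odd:
  -- AlgHom.card K L Ω, separable as CharZero).
  have : CharZero Ω := charZero_of_injective_algebraMap (algebraMap K Ω).injective
  obtain ⟨t, ht⟩ := hs
  have h1 : ∀ φ : L →ₐ[K] Ω, ∃ e : ℤˣ, r φ = ((e : ℤ) : Ω) * φ t := by
    intro φ
    have h2 : (r φ) ^ 2 = (φ t) ^ 2 := by rw [hd, ht, map_mul, pow_two]
    rcases sq_eq_sq_iff_eq_or_eq_neg.1 h2 with h | h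
    · exact ⟨1, by rw [h]; simp⟩
    · exact ⟨-1, by rw [h]; simp⟩
  choose ε hε using h1
  have ht0 : ∀ φ : L →ₐ[K] Ω, φ t ≠ 0 := by
    intro φ h
    apply hr φ
    rw [hε, h, mul_zero]
  have key : ∀ (σ : Ω ≃ₐ[K] Ω) (φ : L →ₐ[K] Ω), c σ (mv σ φ) = ε φ * ε (mv σ φ) := by
    intro σ φ
    have h2 := he σ φ
    rw [hε, hε (mv σ φ), map_mul, map_intCast, mv_apply, ← mul_assoc] at h2
    have h3 : σ (φ t) ≠ 0 := by
      intro h
      exact ht0 φ (σ.injective (by rw [h, map_zero]))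
    have h4 := mul_right_cancel₀ h3 h2
    have h5 : (((ε φ : ℤˣ) : ℤ)) = ((c σ (mv σ φ) : ℤˣ) : ℤ) * ((ε (mv σ φ) : ℤˣ) : ℤ) := by
      exact_mod_cast h4
    have h6 : ε φ = c σ (mv σ φ) * ε (mv σ φ) := by
      apply Units.ext
      rw [h5, Units.val_mul]
    rw [h6, mul_assoc, Int.units_mul_self, mul_one]
  rcases Int.units_eq_one_or (∏ φ, ε φ) with h | h
  · exact ⟨ε, h, key⟩
  · refine ⟨fun φ => -ε φ, ?_, ?_⟩
    · have h2 : ∏ φ : L →ₐ[K] Ω, (-ε φ) = (-1) ^ (Fintype.card (L →ₐ[K] Ω)) * ∏ φ, ε φ := by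
        rw [← Finset.card_univ, ← Finset.prod_const, ← Finset.prod_mul_distrib]
        exact Finset.prod_congr rfl (fun φ _ => by rw [neg_one_mul])
      rw [h2, h, AlgHom.card K L Ω, h3.neg_one_pow]
      rfl
    · intro σ φ
      rw [neg_mul_neg]
      exact key σ φ

end H24PD
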