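import Pool.Agent.H24.PD.Lr
import Pool.Agent.H24.PD.Sd
import Pool.Agent.H73.IS.I1

/-!
Row Sc (about 140 lines): the Selmer classes are trivial. USE ONLY THE STATEMENTS of Wp, Em, Sd, Lr.

PROOF. Ω = AlgebraicClosure K, V = ⟨0,0,0,a,b⟩, E = V.baseChange Ω. emb3: φ₁ φ₂ φ₃; e_i = φ_i θ, distinct (emb_ext), roots (emb_root), isCub_of: h : IsCub E e₁ e₂ e₃ (E.a₁ = 0 etc. by simp [WeierstrassCurve.baseChange, WeierstrassCurve.map]). Every φ θ is one of the e_i.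
 c σ φ := wp (φ θ) (f σ). Hypotheses of sd: hc: f is locally constant (hf.1.1), IsLocallyConstant.comp. hm: f (σ τ) = f σ + act σ (f τ) (isCocycle_iff, Pool/Agent/H10/Func4.lean), wp_add (with (act σ (f τ)) + (act σ (f τ)) = act σ (f τ + f τ) = 0), and wp (σ (φ θ)) (act σ (f τ)) = wp (φ θ) (f τ) by wp_pm (act is pm σ by definition),
 mv_apply. hp: Finset.univ = {φ₁, φ₂, φ₃} (emb3), Finset.prod_insert twice, wp_prod. sd gives r, δ; hL.sp δ: δ = ev θ d, d = ![c₀,c₁,c₂] (ev unfolded). lr gives the local conditions; hS d gives IsSquare δ. sq_family (finrank K L = 3 by fin3) gives ε.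
 wp_ex for ε φ₁, ε φ₂, ε φ₃ (product one) gives S: S + S = 0, wp (φ θ) S = ε φ for all φ. f σ = act σ S - S: since 2S = 0, act σ S - S = act σ S + S (neg_eq_of_add_eq_zero). By wp_ext it suffices wp e' (f σ) = wp e' (act σ S + S) for e' = φ' θ, φ' = φ₁, φ₂, φ₃: φ := mv σ⁻¹ φ', mv σ φ = φ' (mv_mul, mv_one);
 left: c σ (mv σ φ) = ε φ * ε φ'; right: wp_add, wp (σ (φ θ)) (act σ S) = wp (φ θ) S = ε φ by wp_pm.
-/

set_option autoImplicit false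
open scoped Classical

open WeierstrassCurve NumberField IsDedekindDomain Pool.Agent.H10 H76PP

namespace H24PD

section

variable {K L : Type} [Field K] [Field L] [Algebra K L] {V : WeierstrassCurve K} {θ : L}

private theorem Sc_act (σ : AlgebraicClosure K ≃ₐ[K] AlgebraicClosure K)
    {P : (V.baseChange (AlgebraicClosure K)).toAffine.Point} (hP : P + P = 0) :
    act (inv_bc K V) σ P + act (inv_bc K V) σ P = 0 := by
  rw [← map_add, hP, map_zero]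

private theorem Sc_mv (σ : AlgebraicClosure K ≃ₐ[K] AlgebraicClosure K)
    (φ : L →ₐ[K] AlgebraicClosure K) (P : (V.baseChange (AlgebraicClosure K)).toAffine.Point) :
    wp (mv σ φ θ) (act (inv_bc K V) σ P) = wp (φ θ) P :=
  wp_pm (σ : AlgebraicClosure K →+* AlgebraicClosure K) (inv_bc K V σ) (φ θ) P

private theorem Sc_prod [Fintype (L →ₐ[K] AlgebraicClosure K)]
    {φ₁ φ₂ φ₃ : L →ₐ[K] AlgebraicClosure K} (h12 : φ₁ ≠ φ₂) (h13 : φ₁ ≠ φ₃) (h23 : φ₂ ≠ φ₃)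
    (hall : ∀ φ, φ = φ₁ ∨ φ = φ₂ ∨ φ = φ₃) (F : (L →ₐ[K] AlgebraicClosure K) → ℤˣ) :
    ∏ φ, F φ = F φ₁ * F φ₂ * F φ₃ := by
  have huniv : (Finset.univ : Finset (L →ₐ[K] AlgebraicClosure K)) = {φ₁, φ₂, φ₃} := by
    ext φ
    simp only [Finset.mem_univ, Finset.mem_insert, Finset.mem_singleton, true_iff]
    exact hall φ
  rw [huniv, Finset.prod_insert, Finset.prod_insert, Finset.prod_singleton, mul_assoc]
  · simp only [Finset.mem_singleton]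
    exact h23
  · simp only [Finset.mem_insert, Finset.mem_singleton, not_or]
    exact ⟨h12, h13⟩

private theorem Sc_th {φ₁ φ₂ φ₃ : L →ₐ[K] AlgebraicClosure K}
    (hall : ∀ φ, φ = φ₁ ∨ φ = φ₂ ∨ φ = φ₃) (φ : L →ₐ[K] AlgebraicClosure K) :
    φ θ = φ₁ θ ∨ φ θ = φ₂ θ ∨ φ θ = φ₃ θ := by
  rcases hall φ with h | h | h
  · exact Or.inl (by rw [h])
  · exact Or.inr (Or.inl (by rw [h]))
  · exact Or.inr (Or.inr (by rw [h]))

private theorem Sc_one [CharZero K] [FiniteDimensional K L] {φ₁ φ₂ φ₃ : L →ₐ[K] AlgebraicClosure K}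
    (h12 : φ₁ ≠ φ₂) (h13 : φ₁ ≠ φ₃) (h23 : φ₂ ≠ φ₃) (hall : ∀ φ, φ = φ₁ ∨ φ = φ₂ ∨ φ = φ₃)
    (hE : IsCub (V.baseChange (AlgebraicClosure K)) (φ₁ θ) (φ₂ θ) (φ₃ θ)) {f : Coch K V}
    (hcoc : IsCoc (inv_bc K V) f) (hfa : ∀ σ, f σ + f σ = 0) :
    ∃ (r : (L →ₐ[K] AlgebraicClosure K) → AlgebraicClosure K) (δ : L), (∀ φ, r φ ≠ 0) ∧
      (∀ (σ : AlgebraicClosure K ≃ₐ[K] AlgebraicClosure K) (φ : L →ₐ[K] AlgebraicClosure K),
        σ (r φ) = ((wp (mv σ φ θ) (f σ) : ℤ) : AlgebraicClosure K) * r (mv σ φ)) ∧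
      (∀ φ, r φ ^ 2 = φ δ) ∧ δ ≠ 0 ∧ IsSquare (Algebra.norm K δ) := by
  refine sd (K := K) (L := L) (Ω := AlgebraicClosure K) (fun σ φ => wp (φ θ) (f σ))
    (fun φ => hcoc.1.comp (wp (φ θ))) (fun σ τ φ => ?_) (fun σ => ?_)
  · rw [hcoc.2 σ τ, wp_add hE (Sc_th hall _) (hfa σ) (Sc_act σ (hfa τ)), Sc_mv]
  · rw [Sc_prod h12 h13 h23 hall]
    exact wp_prod hE (hfa σ)

private theorem Sc_two [FiniteDimensional K L] {φ₁ φ₂ φ₃ : L →ₐ[K] AlgebraicClosure K}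
    (h12 : φ₁ ≠ φ₂) (h13 : φ₁ ≠ φ₃) (h23 : φ₂ ≠ φ₃) (hall : ∀ φ, φ = φ₁ ∨ φ = φ₂ ∨ φ = φ₃)
    (hE : IsCub (V.baseChange (AlgebraicClosure K)) (φ₁ θ) (φ₂ θ) (φ₃ θ)) {f : Coch K V}
    (hfa : ∀ σ, f σ + f σ = 0) {ε : (L →ₐ[K] AlgebraicClosure K) → ℤˣ} (hε1 : ∏ φ, ε φ = 1)
    (hε2 : ∀ (σ : AlgebraicClosure K ≃ₐ[K] AlgebraicClosure K) (φ : L →ₐ[K] AlgebraicClosure K),
      wp (mv σ φ θ) (f σ) = ε φ * ε (mv σ φ)) :
    ∃ S : (V.baseChange (AlgebraicClosure K)).toAffine.Point,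
      S + S = 0 ∧ ∀ σ, f σ = act (inv_bc K V) σ S - S := by
  rw [Sc_prod h12 h13 h23 hall] at hε1
  obtain ⟨S, hS2, s1, s2, s3⟩ := wp_ex hE hε1
  have hwS : ∀ φ : L →ₐ[K] AlgebraicClosure K, wp (φ θ) S = ε φ := by
    intro φ
    rcases hall φ with h | h | h
    · rw [h, s1]
    · rw [h, s2]
    · rw [h, s3]
  refine ⟨S, hS2, fun σ => ?_⟩
  have hneg : -S = S := neg_eq_of_add_eq_zero_right hS2
  rw [sub_eq_add_neg, hneg]
  have key : ∀ φ' : L →ₐ[K] AlgebraicClosure K, wp (φ' θ) (f σ) =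
      wp (φ' θ) (act (inv_bc K V) σ S + S) := by
    intro φ'
    have h1 : mv σ (mv σ⁻¹ φ') = φ' := by rw [← mv_mul, mul_inv_cancel, mv_one]
    have h2 := hε2 σ (mv σ⁻¹ φ')
    have h3 := Sc_mv (V := V) (θ := θ) σ (mv σ⁻¹ φ') S
    rw [h1] at h2 h3
    rw [wp_add hE (Sc_th hall φ') (Sc_act σ hS2) hS2, h3, hwS, hwS]
    exact h2
  have h2t : (act (inv_bc K V) σ S + S) + (act (inv_bc K V) σ S + S) = 0 := by
    rw [add_add_add_comm, Sc_act σ hS2, hS2, add_zero]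
  exact wp_ext hE (hfa σ) h2t (key φ₁) (key φ₂) (key φ₃)

end

private theorem Sc_cub {K L : Type} [Field K] [NumberField K] [Field L] [Algebra K L] {a b : K}
    {θ : L} (hL : Cub K L a b θ) {φ₁ φ₂ φ₃ : L →ₐ[K] AlgebraicClosure K}
    (h12 : φ₁ ≠ φ₂) (h13 : φ₁ ≠ φ₃) (h23 : φ₂ ≠ φ₃) :
    IsCub ((⟨0, 0, 0, a, b⟩ : WeierstrassCurve K).baseChange (AlgebraicClosure K))
      (φ₁ θ) (φ₂ θ) (φ₃ θ) :=
  isCub_of (a := algebraMap K (AlgebraicClosure K) a) (b := algebraMap K (AlgebraicClosure K) b)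
    (map_zero (algebraMap K (AlgebraicClosure K))) (map_zero (algebraMap K (AlgebraicClosure K)))
    (map_zero (algebraMap K (AlgebraicClosure K))) rfl rfl two_ne_zero
    (emb_root hL φ₁) (emb_root hL φ₂) (emb_root hL φ₃) (fun h => h12 (emb_ext hL h))
    (fun h => h13 (emb_ext hL h)) (fun h => h23 (emb_ext hL h))

theorem sc {K L : Type} [Field K] [NumberField K] [Field L] [NumberField L] [Algebra K L] {a b : K}
    {θ : L} (hL : Cub K L a b θ) (hS : SelTriv K L a b θ)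
    {f : Coch K (⟨0, 0, 0, a, b⟩ : WeierstrassCurve K)}
    (hf : H73IS.Sl K (⟨0, 0, 0, a, b⟩ : WeierstrassCurve K) f) :
    ∃ S : ((⟨0, 0, 0, a, b⟩ : WeierstrassCurve K).baseChange (AlgebraicClosure K)).toAffine.Point,
      S + S = 0 ∧ ∀ σ, f σ = act (inv_bc K _) σ S - S := by
  obtain ⟨hfd, hfr⟩ := fin3 hL
  have hfd' : FiniteDimensional K L := hfd
  obtain ⟨φ₁, φ₂, φ₃, h12, h13, h23, hall⟩ := emb3 (Ω := AlgebraicClosure K) hL
  have hE := Sc_cub hL h12 h13 h23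
  obtain ⟨r, δ, hr, he, hd, hδ, hsq⟩ := Sc_one h12 h13 h23 hall hE ((isCocycle_iff f).1 hf.1) hf.2.2
  obtain ⟨c₀, c₁, c₂, hδe⟩ := hL.sp δ
  have hev : ev θ ![c₀, c₁, c₂] = δ := hδe.symm
  have hd' : ∀ φ : L →ₐ[K] AlgebraicClosure K, r φ ^ 2 = φ (ev θ ![c₀, c₁, c₂]) := by
    intro φ
    rw [hev, hd]
  obtain ⟨l1, l2⟩ := lr hL hf.1 hf.2.1 hf.2.2 hr he hd'
  have hs : IsSquare δ := by
    have h1 := hS ![c₀, c₁, c₂] (by rw [hev]; exact hδ) (by rw [hev]; exact hsq) l1 l2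
    rwa [hev] at h1
  obtain ⟨ε, hε1, hε2⟩ := sq_family (K := K) (L := L) (Ω := AlgebraicClosure K)
    (c := fun σ φ => wp (φ θ) (f σ)) (by rw [hfr]; decide) hr he hd hs
  exact Sc_two h12 h13 h23 hall hE hf.2.2 hε1 hε2

end H24PD
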