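import Pool.Agent.H24.PD.Df

/-!
Row Wp (about 90 lines): the Weil pairing on the two-torsion.

PROOF. Use `tau` of Pool/Agent/H10/Bridge.lean: for a : ℤˣ × ℤˣ: tau (1,1) = 0, tau (1,-1) = T₂, tau (-1,1) = T₃, tau (-1,-1) = T₁, with T_i = some e_i 0 _. Auxiliary lemma (four cases, e_i distinct: h.h12, h.h13, h.h23):
 wp e₁ (h.tau a) = a.1 * a.2, wp e₂ (h.tau a) = a.1, wp e₃ (h.tau a) = a.2 (wp unfolds by rfl on `0` and on `some`; `if e₂ = e₁` etc. by simp [h.h12.symm ..]).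
 exists_tau: every S with S + S = 0 is a tau; tau_add: tau (a * b) = tau a + tau b; tau_add_self; so wp_add, wp_prod, wp_ext (a = b componentwise) and wp_ex (take tau (ε₂, ε₃); ε₁ = ε₂ ε₃ as units of ℤ square to one) are immediate.
 wp_pm: cases on S; pm_some (Pool/Agent/H10/Pm.lean); φ x = φ e iff x = e (φ.injective).
-/

set_option autoImplicit false
open scoped Classical

open WeierstrassCurve Pool.Agent.H10

namespace H24PD

variable {k : Type*} [Field k] {E : WeierstrassCurve k} {e₁ e₂ e₃ : k}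

theorem Wp_zero (e : k) : wp e (0 : E.toAffine.Point) = 1 := rfl

theorem Wp_some (e x y : k) (hxy : E.toAffine.Nonsingular x y) :
    wp e (Affine.Point.some x y hxy) = if x = e then 1 else -1 := rfl

theorem Wp_tau (h : IsCub E e₁ e₂ e₃) (a : ℤˣ × ℤˣ) :
    wp e₁ (h.tau a) = a.1 * a.2 ∧ wp e₂ (h.tau a) = a.1 ∧ wp e₃ (h.tau a) = a.2 := by
  have hm : ((-1 : ℤˣ) = 1) = False := by decide
  have h12 := h.h12
  have h13 := h.h13
  have h23 := h.h23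
  rcases a with ⟨u, v⟩
  rcases Int.units_eq_one_or u with rfl | rfl <;> rcases Int.units_eq_one_or v with rfl | rfl <;>
    simp [IsCub.tau, hm, IsCub.T₁, IsCub.T₂, IsCub.T₃, Wp_zero, Wp_some, h12, h13, h23, h12.symm,
      h13.symm, h23.symm]

theorem wp_add (h : IsCub E e₁ e₂ e₃) {e : k} (he : e = e₁ ∨ e = e₂ ∨ e = e₃)
    {S S' : E.toAffine.Point} (hS : S + S = 0) (hS' : S' + S' = 0) :
    wp e (S + S') = wp e S * wp e S' := by
  obtain ⟨a, rfl⟩ := h.exists_tau S hS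
  obtain ⟨b, rfl⟩ := h.exists_tau S' hS'
  rw [← h.tau_add]
  obtain ⟨a1, a2, a3⟩ := Wp_tau h a
  obtain ⟨b1, b2, b3⟩ := Wp_tau h b
  obtain ⟨c1, c2, c3⟩ := Wp_tau h (a * b)
  rcases he with rfl | rfl | rfl
  · rw [a1, b1, c1, Prod.fst_mul, Prod.snd_mul]
    exact mul_mul_mul_comm _ _ _ _
  · rw [a2, b2, c2, Prod.fst_mul]
  · rw [a3, b3, c3, Prod.snd_mul]

theorem wp_prod (h : IsCub E e₁ e₂ e₃) {S : E.toAffine.Point} (hS : S + S = 0) :
    wp e₁ S * wp e₂ S * wp e₃ S = 1 := by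
  obtain ⟨a, rfl⟩ := h.exists_tau S hS
  obtain ⟨a1, a2, a3⟩ := Wp_tau h a
  rw [a1, a2, a3]
  rcases a with ⟨u, v⟩
  rcases Int.units_eq_one_or u with rfl | rfl <;> rcases Int.units_eq_one_or v with rfl | rfl <;>
    simp

theorem wp_ext (h : IsCub E e₁ e₂ e₃) {S S' : E.toAffine.Point} (hS : S + S = 0)
    (hS' : S' + S' = 0) (h1 : wp e₁ S = wp e₁ S') (h2 : wp e₂ S = wp e₂ S')
    (h3 : wp e₃ S = wp e₃ S') : S = S' := by
  obtain ⟨a, rfl⟩ := h.exists_tau S hS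
  obtain ⟨b, rfl⟩ := h.exists_tau S' hS'
  obtain ⟨a1, a2, a3⟩ := Wp_tau h a
  obtain ⟨b1, b2, b3⟩ := Wp_tau h b
  rw [a2, b2] at h2
  rw [a3, b3] at h3
  rw [Prod.ext h2 h3]

theorem wp_ex (h : IsCub E e₁ e₂ e₃) {ε₁ ε₂ ε₃ : ℤˣ} (hε : ε₁ * ε₂ * ε₃ = 1) :
    ∃ S : E.toAffine.Point, S + S = 0 ∧ wp e₁ S = ε₁ ∧ wp e₂ S = ε₂ ∧ wp e₃ S = ε₃ := by
  obtain ⟨a1, a2, a3⟩ := Wp_tau h (ε₂, ε₃)
  refine ⟨h.tau (ε₂, ε₃), h.tau_add_self _, ?_, a2, a3⟩
  rw [a1]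
  change ε₂ * ε₃ = ε₁
  rcases Int.units_eq_one_or ε₁ with rfl | rfl <;> rcases Int.units_eq_one_or ε₂ with rfl | rfl <;>
    rcases Int.units_eq_one_or ε₃ with rfl | rfl <;> revert hε <;> decide

theorem wp_pm {k' : Type*} [Field k'] {E' : WeierstrassCurve k'} (φ : k →+* k')
    (hE : E.map φ = E') (e : k) (S : E.toAffine.Point) : wp (φ e) (pm φ hE S) = wp e S := by
  rcases S with _ | ⟨x, y, hxy⟩
  · rw [← Affine.Point.zero_def, map_zero, Wp_zero, Wp_zero]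
  · rw [pm_some, Wp_some, Wp_some]
    simp only [φ.injective.eq_iff]

end H24PD
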